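import Pool.Agent.H160R2.HL.Defs
import Pool.Agent.H974R3.Alt

/-! # Task HA: the alternant as a kernel determinant -/

set_option autoImplicit false

namespace Pool.Agent.H160R2.HL
open Finset Filter Topology
open Pool.Agent.H974R3 Pool.Agent.H160R2.OA

theorem norm_det_submatrix {m n : Type*} [Fintype m] [Fintype n] [DecidableEq m] [DecidableEq n]
    (A : Matrix n n ℂ) (e f : m ≃ n) : ‖(A.submatrix e f).det‖ = ‖A.det‖ := by
  have h1 : A.submatrix e f = (A.submatrix e e).submatrix id (f.trans e.symm) := by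
    ext i j
    simp
  rw [h1, Matrix.det_permute', Matrix.det_submatrix_equiv_self, norm_mul]
  have h2 : ‖(((Equiv.Perm.sign (f.trans e.symm) : ℤˣ) : ℤ) : ℂ)‖ = 1 := by
    rcases Int.units_eq_one_or (Equiv.Perm.sign (f.trans e.symm)) with h | h <;> rw [h] <;> simp
  rw [h2, one_mul]

/-- the matrix of Lagrange interpolation -/
noncomputable def HAq {N : ℕ} (X Y : Fin N → ℂ) : Matrix (Fin N) (Fin N) ℂ :=
  Matrix.of fun j i => ∏ l ∈ univ.erase i, ((X i - X l)⁻¹ * (Y j - X l))

theorem HA_interp {N : ℕ} (X Y : Fin N → ℂ) (hX : Function.Injective X) :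
    Matrix.vandermonde Y = HAq X Y * Matrix.vandermonde X := by
  ext j k
  rw [Matrix.mul_apply]
  simp only [Matrix.vandermonde_apply, HAq, Matrix.of_apply]
  have hdeg : ((Polynomial.X : Polynomial ℂ) ^ (k : ℕ)).degree < (univ : Finset (Fin N)).card := by
    rw [Polynomial.degree_X_pow, Finset.card_fin]
    exact_mod_cast k.2
  have h := Lagrange.eq_interpolate (s := (univ : Finset (Fin N))) (v := X) hX.injOn hdeg
  have h2 := congrArg (Polynomial.eval (Y j)) h
  rw [Polynomial.eval_pow, Polynomial.eval_X, Lagrange.interpolate_apply,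
    Polynomial.eval_finset_sum] at h2
  rw [h2]
  apply Finset.sum_congr rfl
  intro i _
  rw [Polynomial.eval_mul, Polynomial.eval_C, Polynomial.eval_pow, Polynomial.eval_X,
    Lagrange.basis, Polynomial.eval_prod, mul_comm]
  congr 1
  apply Finset.prod_congr rfl
  intro l _
  simp [Lagrange.basisDivisor]

/-- the columns -/
def HAcol (N : ℕ) : Fin N ⊕ Fin N ≃ Fin (N + N) where
  toFun := Sum.elim (fun k => ⟨2 * k, by omega⟩) (fun k => ⟨2 * k + 1, by omega⟩)
  invFun := fun j => if (j : ℕ) % 2 = 0 then Sum.inl ⟨j / 2, by omega⟩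
    else Sum.inr ⟨j / 2, by omega⟩
  left_inv := by
    rintro (k | k)
    · simp
    · have h : (2 * (k : ℕ) + 1) % 2 = 1 := by omega
      have h2 : (2 * (k : ℕ) + 1) / 2 = k := by omega
      simp [h2]
  right_inv := by
    intro j
    by_cases h : (j : ℕ) % 2 = 0
    · simp only [h, if_true, Sum.elim_inl]
      ext
      simp only
      omega
    · simp only [h, if_false, Sum.elim_inr]
      ext
      simp only
      omega

theorem HA_vand {N : ℕ} (X : Fin N → ℂ) :
    ∏ i, ∏ l ∈ univ.erase i, ‖X i - X l‖ = ‖(Matrix.vandermonde X).det‖ ^ 2 := by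
  rw [Matrix.det_vandermonde, norm_prod]
  have h := Finset.prod_prod_Ioi_mul_eq_prod_prod_off_diag (fun i j : Fin N => ‖X j - X i‖)
  have h3 : ∏ i, ∏ l ∈ univ.erase i, ‖X i - X l‖ = ∏ i, ∏ j ∈ ({i}ᶜ : Finset (Fin N)), ‖X i - X j‖ := by
    apply Finset.prod_congr rfl
    intro i _
    apply Finset.prod_congr _ (fun _ _ => rfl)
    ext l
    simp
  rw [h3, ← h, ← Finset.prod_pow]
  apply Finset.prod_congr rfl
  intro i _
  rw [norm_prod, ← Finset.prod_pow]
  apply Finset.prod_congr rfl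
  intro j _
  rw [sq, norm_sub_rev (X i) (X j)]

theorem alt_ker (r N : ℕ) (x y : Fin N → ℂ) (hx : Function.Injective (fun i => x i ^ 3))
    (hxy : ∀ i j, x i ^ 3 ≠ y j ^ 3) :
    ‖(Matrix.of fun i j : Fin N => (x i ^ r - y j ^ r) / (x i ^ 3 - y j ^ 3)).det‖
      * ∏ i, ∏ j, ‖x i ^ 3 - y j ^ 3‖
    = ‖(Matrix.of fun i j : Fin (N + N) => (Fin.append x y i) ^ aexp r j).det‖ := by
  set X : Fin N → ℂ := fun i => x i ^ 3 with hX
  set Y : Fin N → ℂ := fun i => y i ^ 3 with hY
  set K : Matrix (Fin N) (Fin N) ℂ :=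
    Matrix.of fun i j : Fin N => (x i ^ r - y j ^ r) / (x i ^ 3 - y j ^ 3) with hK
  set A : Matrix (Fin (N + N)) (Fin (N + N)) ℂ :=
    Matrix.of fun i j : Fin (N + N) => (Fin.append x y i) ^ aexp r j with hA
  set VX := Matrix.vandermonde X with hVX
  set VY := Matrix.vandermonde Y with hVY
  set Dx : Matrix (Fin N) (Fin N) ℂ := Matrix.diagonal (fun i => x i ^ r) with hDx
  set Dy : Matrix (Fin N) (Fin N) ℂ := Matrix.diagonal (fun i => y i ^ r) with hDy
  set Q := HAq X Y with hQ
  have hsub : A.submatrix finSumFinEquiv (HAcol N) =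
      Matrix.fromBlocks VX (Dx * VX) VY (Dy * VY) := by
    have e1 : ∀ k : Fin N, aexp r ((HAcol N (Sum.inl k) : Fin (N + N)) : ℕ) = 3 * k := by
      intro k
      simp [HAcol, aexp]
    have e2 : ∀ k : Fin N, aexp r ((HAcol N (Sum.inr k) : Fin (N + N)) : ℕ) = r + 3 * k := by
      intro k
      have h1 : (2 * (k : ℕ) + 1) / 2 = k := by omega
      have h2 : (2 * (k : ℕ) + 1) % 2 = 1 := by omega
      simp only [HAcol, aexp, Equiv.coe_fn_mk, Sum.elim_inr, h1, h2]
      ring
    ext i k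
    rcases i with i | i <;> rcases k with k | k
    · rw [Matrix.submatrix_apply, hA, Matrix.of_apply, e1, finSumFinEquiv_apply_left,
        Fin.append_left, Matrix.fromBlocks_apply₁₁, hVX, Matrix.vandermonde_apply, hX, pow_mul]
    · rw [Matrix.submatrix_apply, hA, Matrix.of_apply, e2, finSumFinEquiv_apply_left,
        Fin.append_left, Matrix.fromBlocks_apply₁₂, hDx, Matrix.diagonal_mul, hVX,
        Matrix.vandermonde_apply, hX, pow_add, pow_mul]
    · rw [Matrix.submatrix_apply, hA, Matrix.of_apply, e1, finSumFinEquiv_apply_right,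
        Fin.append_right, Matrix.fromBlocks_apply₂₁, hVY, Matrix.vandermonde_apply, hY, pow_mul]
    · rw [Matrix.submatrix_apply, hA, Matrix.of_apply, e2, finSumFinEquiv_apply_right,
        Fin.append_right, Matrix.fromBlocks_apply₂₂, hDy, Matrix.diagonal_mul, hVY,
        Matrix.vandermonde_apply, hY, pow_add, pow_mul]
  have hVYQ : VY = Q * VX := HA_interp X Y hx
  have hfac : Matrix.fromBlocks VX (Dx * VX) VY (Dy * VY) =
      Matrix.fromBlocks 1 0 Q 1 * Matrix.fromBlocks VX (Dx * VX) 0 ((Dy * Q - Q * Dx) * VX) := by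
    rw [Matrix.fromBlocks_multiply]
    simp only [one_mul, zero_mul, add_zero, mul_zero]
    rw [hVYQ]
    congr 1
    rw [sub_mul, Matrix.mul_assoc, Matrix.mul_assoc]
    abel
  have hdet : (Matrix.fromBlocks VX (Dx * VX) VY (Dy * VY)).det =
      VX.det * ((Dy * Q - Q * Dx).det * VX.det) := by
    rw [hfac, Matrix.det_mul, Matrix.det_fromBlocks_zero₁₂, Matrix.det_fromBlocks_zero₂₁,
      Matrix.det_mul]
    simp
  set α : Fin N → ℂ := fun j => ∏ l, (Y j - X l) with hα
  set β : Fin N → ℂ := fun i => ∏ l ∈ univ.erase i, (X i - X l)⁻¹ with hβ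
  have hZ : Dy * Q - Q * Dx = Matrix.diagonal α * (K.transpose * Matrix.diagonal β) := by
    ext j i
    rw [Matrix.sub_apply, hDy, hDx, Matrix.diagonal_mul, Matrix.mul_diagonal, Matrix.diagonal_mul,
      Matrix.mul_diagonal, Matrix.transpose_apply, hK, Matrix.of_apply, hQ, HAq, Matrix.of_apply,
      Finset.prod_mul_distrib]
    have h1 : α j = (Y j - X i) * ∏ l ∈ univ.erase i, (Y j - X l) := by
      rw [hα]
      exact (Finset.mul_prod_erase univ (fun l => Y j - X l) (Finset.mem_univ i)).symm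
    rw [h1]
    have h2 : x i ^ 3 - y j ^ 3 ≠ 0 := sub_ne_zero.mpr (hxy i j)
    have h3 : Y j - X i = -(x i ^ 3 - y j ^ 3) := by rw [hX, hY]; ring
    rw [h3]
    have h5 : ∀ (P c d u v : ℂ), d ≠ 0 →
        v * (c * P) - (c * P) * u = (-d * P) * ((u - v) / d * c) := by
      intro P c d u v hd
      field_simp
      ring
    exact h5 _ _ _ _ _ h2
  have hVX0 : VX.det ≠ 0 := by
    rw [hVX]
    exact Matrix.det_vandermonde_ne_zero_iff.mpr hx
  have hn : ‖(∏ i, β i)‖ * ‖VX.det‖ ^ 2 = 1 := by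
    rw [← HA_vand X, norm_prod, ← Finset.prod_mul_distrib]
    apply Finset.prod_eq_one
    intro i _
    rw [hβ, norm_prod, ← Finset.prod_mul_distrib]
    apply Finset.prod_eq_one
    intro l hl
    rw [norm_inv]
    apply inv_mul_cancel₀
    rw [norm_ne_zero_iff, sub_ne_zero]
    intro h
    exact (Finset.ne_of_mem_erase hl) (hx h).symm
  have hαn : ‖(∏ j, α j)‖ = ∏ i, ∏ j, ‖x i ^ 3 - y j ^ 3‖ := by
    rw [norm_prod, Finset.prod_comm]
    apply Finset.prod_congr rfl
    intro j _
    rw [hα, norm_prod]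
    apply Finset.prod_congr rfl
    intro l _
    rw [norm_sub_rev]
  rw [← norm_det_submatrix A finSumFinEquiv (HAcol N), hsub, hdet, hZ, Matrix.det_mul,
    Matrix.det_mul, Matrix.det_diagonal, Matrix.det_diagonal, Matrix.det_transpose]
  simp only [norm_mul]
  rw [hαn]
  linear_combination (-(∏ i, ∏ j, ‖x i ^ 3 - y j ^ 3‖) * ‖K.det‖) * hn

end Pool.Agent.H160R2.HL
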