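import Pool.Agent.H160R2.HL.Defs

/-! # Task HL1 of helper160 (limits of the arrays), by helper301 -/

set_option autoImplicit false

namespace Pool.Agent.H160R2.HL
open Finset Filter Topology
open Pool.Agent.H160R2.OA

theorem TT_lim {α : Type*} (l : Filter α) (s r : α → ℕ → ℂ)
    (hs : ∀ k, Tendsto (fun t => s t k) l (𝓝 0)) (hr : ∀ k, Tendsto (fun t => r t k) l (𝓝 0))
    (a b : ℕ) : Tendsto (fun t => TT (s t) (r t) a b) l (𝓝 ((Nat.choose (a + b) a : ℕ) : ℂ)) := by
  have hd : ∀ a b, Tendsto (fun t => 1 - s t a - r t b) l (𝓝 1) := by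
    intro a b
    have h := ((tendsto_const_nhds (x := (1 : ℂ)) (f := l)).sub (hs a)).sub (hr b)
    simpa using h
  induction a generalizing b with
  | zero =>
    induction b with
    | zero =>
      have h := (tendsto_const_nhds (x := (1 : ℂ)) (f := l)).div (hd 0 0) one_ne_zero
      simpa [TT, Pi.div_def] using h
    | succ b ih =>
      have h := ih.div (hd 0 (b + 1)) one_ne_zero
      simpa [TT, Pi.div_def] using h
  | succ a iha =>
    induction b with
    | zero =>
      have h := (iha 0).div (hd (a + 1) 0) one_ne_zero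
      simpa [TT, Pi.div_def] using h
    | succ b ihb =>
      have h := ((iha (b + 1)).add ihb).div (hd (a + 1) (b + 1)) one_ne_zero
      have e : ((Nat.choose (a + 1 + (b + 1)) (a + 1) : ℕ) : ℂ) =
          (((Nat.choose (a + (b + 1)) a : ℕ) : ℂ) + ((Nat.choose (a + 1 + b) (a + 1) : ℕ) : ℂ)) / 1 := by
        have e1 : a + 1 + (b + 1) = (a + (b + 1)) + 1 := by ring
        have e2 : a + 1 + b = a + (b + 1) := by ring
        rw [e1, e2, Nat.choose_succ_succ]
        push_cast
        ring
      rw [e]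
      have e3 : (fun t => TT (s t) (r t) (a + 1) (b + 1)) =
          (fun t => (TT (s t) (r t) a (b + 1) + TT (s t) (r t) (a + 1) b) /
            (1 - s t (a + 1) - r t (b + 1))) := by
        funext t; rw [TT]
      rw [e3]
      exact h

theorem UU_lim {α : Type*} (l : Filter α) (s r : α → ℕ → ℂ)
    (hs : ∀ k, Tendsto (fun t => s t k) l (𝓝 0)) (hr : ∀ k, Tendsto (fun t => r t k) l (𝓝 0))
    (a b : ℕ) : Tendsto (fun t => UU (s t) (r t) a b) l (𝓝 (if a = b then 1 else 0)) := by
  have hd : ∀ a b, Tendsto (fun t => 1 - s t a * r t b) l (𝓝 1) := by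
    intro a b
    have h := (tendsto_const_nhds (x := (1 : ℂ)) (f := l)).sub ((hs a).mul (hr b))
    simpa using h
  induction a generalizing b with
  | zero =>
    induction b with
    | zero =>
      have h := (tendsto_const_nhds (x := (1 : ℂ)) (f := l)).div (hd 0 0) one_ne_zero
      simpa [UU, Pi.div_def] using h
    | succ b ih =>
      have h := ((hs 0).mul ih).div (hd 0 (b + 1)) one_ne_zero
      simpa [UU, Pi.div_def] using h
  | succ a iha =>
    induction b with
    | zero =>
      have h := ((hr 0).mul (iha 0)).div (hd (a + 1) 0) one_ne_zero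
      simpa [UU, Pi.div_def] using h
    | succ b ihb =>
      have h := ((((hs (a + 1)).mul ihb).add ((hr (b + 1)).mul (iha (b + 1)))).add
        (iha b)).div (hd (a + 1) (b + 1)) one_ne_zero
      have e3 : (fun t => UU (s t) (r t) (a + 1) (b + 1)) =
          (fun t => (s t (a + 1) * UU (s t) (r t) (a + 1) b + r t (b + 1) * UU (s t) (r t) a (b + 1)
            + UU (s t) (r t) a b) / (1 - s t (a + 1) * r t (b + 1))) := by
        funext t; rw [UU]
      rw [e3]
      simpa [Pi.div_def] using h

theorem det_lim {α : Type*} (l : Filter α) (s r : α → ℕ → ℂ)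
    (hs : ∀ k, Tendsto (fun t => s t k) l (𝓝 0)) (hr : ∀ k, Tendsto (fun t => r t k) l (𝓝 0))
    (N : ℕ) (w : ℂ) :
    Tendsto (fun t => (Matrix.of fun i j : Fin N => UU (s t) (r t) i j + w * TT (s t) (r t) i j).det)
      l (𝓝 ((1 : Matrix (Fin N) (Fin N) ℂ) + w • (B N).map (fun x : ℝ => (x : ℂ))).det) := by
  have hM : Tendsto (fun t => (Matrix.of fun i j : Fin N =>
      UU (s t) (r t) i j + w * TT (s t) (r t) i j)) l
      (𝓝 ((1 : Matrix (Fin N) (Fin N) ℂ) + w • (B N).map (fun x : ℝ => (x : ℂ)))) := by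
    refine tendsto_pi_nhds.2 fun i => tendsto_pi_nhds.2 fun j => ?_
    have h := (UU_lim l s r hs hr i j).add ((TT_lim l s r hs hr i j).const_mul w)
    have e : ((1 : Matrix (Fin N) (Fin N) ℂ) + w • (B N).map (fun x : ℝ => (x : ℂ))) i j =
        (if (i : ℕ) = (j : ℕ) then 1 else 0) + w * ((Nat.choose ((i : ℕ) + j) i : ℕ) : ℂ) := by
      simp [B, Matrix.one_apply, Fin.ext_iff]
    rw [e]
    exact h
  have hc : Continuous (fun M : Matrix (Fin N) (Fin N) ℂ => M.det) :=
    Continuous.matrix_det continuous_id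
  exact (hc.tendsto _).comp hM

end Pool.Agent.H160R2.HL
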