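import Pool.Agent.H160R2.HL.Ker
import Pool.Agent.H160R2.HL.Lim

/-! # The homogeneous limit of the determinant (task HM) -/

set_option autoImplicit false

namespace Pool.Agent.H160R2.HL
open Finset Filter Topology
open Pool.Agent.H160R2.OA

theorem HM_card (N : ℕ) : ∑ i : Fin N, (Finset.Ioi i).card = N * (N - 1) / 2 := by
  rw [← Finset.sum_range_id, ← Finset.sum_range_reflect, ← Fin.sum_univ_eq_sum_range
    (fun j => N - 1 - j) N]
  refine Finset.sum_congr rfl fun i _ => ?_
  rw [Fin.card_Ioi]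

theorem HM_const (N : ℕ) (c : ℂ) :
    ∏ i : Fin N, ∏ _j ∈ Finset.Ioi i, c = c ^ (N * (N - 1) / 2) := by
  simp only [Finset.prod_const]
  rw [Finset.prod_pow_eq_pow_sum, HM_card]

theorem HM_vand (N : ℕ) (v : Fin N → ℂ) (hv : Function.Injective v) :
    (Matrix.vandermonde v).det ≠ 0 := Matrix.det_vandermonde_ne_zero_iff.2 hv

theorem hom_lim (q : ℂ) (hq : q ^ 2 + q + 1 = 0) (N : ℕ) (w : ℂ) {α : Type*} (l : Filter α)
    (x y : α → ℕ → ℂ)
    (hx : ∀ k, Tendsto (fun t => x t k) l (𝓝 1)) (hy : ∀ k, Tendsto (fun t => y t k) l (𝓝 1))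
    (hxi : ∀ᶠ t in l, Function.Injective (x t)) (hyi : ∀ᶠ t in l, Function.Injective (y t)) :
    Tendsto (fun t => (Matrix.of fun i j : Fin N =>
        1 / (q ^ 2 * x t i - q * y t j) + w / (q ^ 2 * y t j - q * x t i)).det
        / ((Matrix.vandermonde (fun i : Fin N => x t i)).det
          * (Matrix.vandermonde (fun i : Fin N => y t i)).det)) l
      (𝓝 ((q / (1 - q ^ 2)) ^ N * (1 / 3) ^ (N * (N - 1) / 2)
        * ((1 : Matrix (Fin N) (Fin N) ℂ) + w • (B N).map (fun x : ℝ => (x : ℂ))).det)) := by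
  have hq1 : 1 - q ≠ 0 := by
    intro h
    have h1 : q = 1 := by linear_combination -h
    rw [h1] at hq
    norm_num at hq
  have hq2 : 1 - q ^ 2 ≠ 0 := by
    intro h
    have h1 : q = -2 := by linear_combination hq + h
    rw [h1] at hq
    norm_num at hq
  have hq0 : q ≠ 0 := by
    intro h
    rw [h] at hq
    norm_num at hq
  have hq3 : q ^ 3 = 1 := by linear_combination (q - 1) * hq
  have hq4 : (1 - q) * (1 - q ^ 2) = 3 := by linear_combination hq3 - hq
  -- the substitutions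
  set s : α → ℕ → ℂ := fun t k => -q * (x t k - 1) / (x t k - q ^ 2) with hs
  set r : α → ℕ → ℂ := fun t k => -q ^ 2 * (y t k - 1) / (y t k - q) with hr
  have hs0 : ∀ k, Tendsto (fun t => s t k) l (𝓝 0) := by
    intro k
    have h1 : Tendsto (fun t => -q * (x t k - 1) / (x t k - q ^ 2)) l
        (𝓝 (-q * (1 - 1) / (1 - q ^ 2))) :=
      (((hx k).sub_const 1).const_mul (-q)).div ((hx k).sub_const (q ^ 2)) hq2
    have h2 : -q * (1 - 1) / (1 - q ^ 2) = 0 := by simp
    rwa [h2] at h1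
  have hr0 : ∀ k, Tendsto (fun t => r t k) l (𝓝 0) := by
    intro k
    have h1 : Tendsto (fun t => -q ^ 2 * (y t k - 1) / (y t k - q)) l
        (𝓝 (-q ^ 2 * (1 - 1) / (1 - q))) :=
      (((hy k).sub_const 1).const_mul (-q ^ 2)).div ((hy k).sub_const q) hq1
    have h2 : -q ^ 2 * (1 - 1) / (1 - q) = 0 := by simp
    rwa [h2] at h1
  -- conditions which hold eventually
  have e1 : ∀ᶠ t in l, ∀ i : Fin N, x t i - q ^ 2 ≠ 0 := by
    rw [Filter.eventually_all]
    intro i
    exact ((hx i).sub_const (q ^ 2)).eventually_ne hq2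
  have e2 : ∀ᶠ t in l, ∀ i : Fin N, y t i - q ≠ 0 := by
    rw [Filter.eventually_all]
    intro i
    exact ((hy i).sub_const q).eventually_ne hq1
  have e3 : ∀ᶠ t in l, ∀ i j : Fin N, 1 - s t i * r t j ≠ 0 := by
    rw [Filter.eventually_all]
    intro i
    rw [Filter.eventually_all]
    intro j
    have h1 : Tendsto (fun t => 1 - s t i * r t j) l (𝓝 (1 - 0 * 0)) :=
      ((hs0 i).mul (hr0 j)).const_sub 1
    exact h1.eventually_ne (by norm_num)
  have e4 : ∀ᶠ t in l, ∀ i j : Fin N, 1 - s t i - r t j ≠ 0 := by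
    rw [Filter.eventually_all]
    intro i
    rw [Filter.eventually_all]
    intro j
    have h1 : Tendsto (fun t => 1 - s t i - r t j) l (𝓝 (1 - 0 - 0)) :=
      ((hs0 i).const_sub 1).sub (hr0 j)
    exact h1.eventually_ne (by norm_num)
  -- the explicit form
  have hform : (fun t => ((1 - q) * q) ^ N * (∏ i : Fin N, (x t i - q ^ 2)⁻¹) *
      (∏ i : Fin N, (y t i - q)⁻¹) *
      (∏ i : Fin N, ∏ j ∈ Finset.Ioi i, (-q * (1 - q ^ 2) / ((x t j - q ^ 2) * (x t i - q ^ 2)))) *
      (∏ i : Fin N, ∏ j ∈ Finset.Ioi i, (-q ^ 2 * (1 - q) / ((y t j - q) * (y t i - q)))) *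
      (Matrix.of fun i j : Fin N => UU (s t) (r t) i j + w * TT (s t) (r t) i j).det) =ᶠ[l]
      (fun t => (Matrix.of fun i j : Fin N =>
        1 / (q ^ 2 * x t i - q * y t j) + w / (q ^ 2 * y t j - q * x t i)).det
        / ((Matrix.vandermonde (fun i : Fin N => x t i)).det
          * (Matrix.vandermonde (fun i : Fin N => y t i)).det)) := by
    filter_upwards [e1, e2, e3, e4, hxi, hyi] with t h1 h2 h3 h4 h5 h6
    have g1 : (Matrix.of fun i j : Fin N =>
        1 / (q ^ 2 * x t i - q * y t j) + w / (q ^ 2 * y t j - q * x t i)) =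
        Matrix.of fun i j : Fin N => ((1 - q) * q * (x t i - q ^ 2)⁻¹) *
          (Matrix.of fun i j : Fin N => (y t j - q)⁻¹ *
            (Matrix.of fun i j : Fin N =>
              1 / (1 - s t i * r t j) + w / (1 - s t i - r t j)) i j) i j := by
      ext i j
      simp only [Matrix.of_apply]
      have a1 := h1 i
      have a2 := h2 j
      have k1 : 1 - s t i * r t j = (1 - q) * q * (q ^ 2 * x t i - q * y t j) /
          ((x t i - q ^ 2) * (y t j - q)) := by
        rw [hs, hr]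
        simp only
        rw [div_mul_div_comm, eq_div_iff (mul_ne_zero a1 a2), sub_mul,
          div_mul_cancel₀ _ (mul_ne_zero a1 a2)]
        linear_combination (-(x t i * (y t j - q))) * hq3
      have k2 : 1 - s t i - r t j = (1 - q) * q * (q ^ 2 * y t j - q * x t i) /
          ((x t i - q ^ 2) * (y t j - q)) := by
        rw [hs, hr]
        simp only
        field_simp
        linear_combination ((x t i - q) * (y t j - q)) * hq
      have b1 : q ^ 2 * x t i - q * y t j ≠ 0 := by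
        intro h
        apply h3 i j
        rw [k1, h]; simp
      have b2 : q ^ 2 * y t j - q * x t i ≠ 0 := by
        intro h
        apply h4 i j
        rw [k2, h]; simp
      rw [k1, k2]
      field_simp
    rw [g1, Matrix.det_mul_column, Matrix.det_mul_row, ker_det N w (s t) (r t)
      (fun i j hi hj => h3 ⟨i, hi⟩ ⟨j, hj⟩) (fun i j hi hj => h4 ⟨i, hi⟩ ⟨j, hj⟩)]
    have v1 : (Matrix.vandermonde (fun i : Fin N => s t i)).det =
        (Matrix.vandermonde (fun i : Fin N => x t i)).det * ∏ i : Fin N, ∏ j ∈ Finset.Ioi i,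
          (-q * (1 - q ^ 2) / ((x t j - q ^ 2) * (x t i - q ^ 2))) := by
      rw [Matrix.det_vandermonde, Matrix.det_vandermonde, ← Finset.prod_mul_distrib]
      refine Finset.prod_congr rfl fun i _ => ?_
      rw [← Finset.prod_mul_distrib]
      refine Finset.prod_congr rfl fun j _ => ?_
      have a1 := h1 i
      have a2 := h1 j
      rw [hs]
      simp only
      field_simp
      ring
    have v2 : (Matrix.vandermonde (fun i : Fin N => r t i)).det =
        (Matrix.vandermonde (fun i : Fin N => y t i)).det * ∏ i : Fin N, ∏ j ∈ Finset.Ioi i,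
          (-q ^ 2 * (1 - q) / ((y t j - q) * (y t i - q))) := by
      rw [Matrix.det_vandermonde, Matrix.det_vandermonde, ← Finset.prod_mul_distrib]
      refine Finset.prod_congr rfl fun i _ => ?_
      rw [← Finset.prod_mul_distrib]
      refine Finset.prod_congr rfl fun j _ => ?_
      have a1 := h2 i
      have a2 := h2 j
      rw [hr]
      simp only
      field_simp
      ring
    rw [v1, v2]
    have w1 : (Matrix.vandermonde (fun i : Fin N => x t i)).det ≠ 0 :=
      HM_vand N _ (fun i j h => Fin.ext (h5 h))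
    have w2 : (Matrix.vandermonde (fun i : Fin N => y t i)).det ≠ 0 :=
      HM_vand N _ (fun i j h => Fin.ext (h6 h))
    rw [Finset.prod_mul_distrib, Finset.prod_const, Finset.card_univ, Fintype.card_fin]
    field_simp
  refine Tendsto.congr' hform ?_
  -- the limit
  have l1 : Tendsto (fun t => ∏ i : Fin N, (x t i - q ^ 2)⁻¹) l
      (𝓝 (∏ _i : Fin N, (1 - q ^ 2)⁻¹)) :=
    tendsto_finset_prod _ fun i _ => ((hx i).sub_const (q ^ 2)).inv₀ hq2
  have l2 : Tendsto (fun t => ∏ i : Fin N, (y t i - q)⁻¹) l (𝓝 (∏ _i : Fin N, (1 - q)⁻¹)) :=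
    tendsto_finset_prod _ fun i _ => ((hy i).sub_const q).inv₀ hq1
  have l3 : Tendsto (fun t => ∏ i : Fin N, ∏ j ∈ Finset.Ioi i,
      (-q * (1 - q ^ 2) / ((x t j - q ^ 2) * (x t i - q ^ 2)))) l
      (𝓝 (∏ i : Fin N, ∏ _j ∈ Finset.Ioi i,
        (-q * (1 - q ^ 2) / ((1 - q ^ 2) * (1 - q ^ 2))))) :=
    tendsto_finset_prod _ fun i _ => tendsto_finset_prod _ fun j _ =>
      tendsto_const_nhds.div (((hx j).sub_const (q ^ 2)).mul ((hx i).sub_const (q ^ 2)))
        (mul_ne_zero hq2 hq2)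
  have l4 : Tendsto (fun t => ∏ i : Fin N, ∏ j ∈ Finset.Ioi i,
      (-q ^ 2 * (1 - q) / ((y t j - q) * (y t i - q)))) l
      (𝓝 (∏ i : Fin N, ∏ _j ∈ Finset.Ioi i,
        (-q ^ 2 * (1 - q) / ((1 - q) * (1 - q))))) :=
    tendsto_finset_prod _ fun i _ => tendsto_finset_prod _ fun j _ =>
      tendsto_const_nhds.div (((hy j).sub_const q).mul ((hy i).sub_const q))
        (mul_ne_zero hq1 hq1)
  have l5 := det_lim l s r hs0 hr0 N w
  have l6 := ((((tendsto_const_nhds (x := ((1 - q) * q) ^ N) (f := l)).mul l1).mul l2).mul l3).mul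
    l4 |>.mul l5
  have hval : ((1 - q) * q) ^ N * (∏ _i : Fin N, (1 - q ^ 2)⁻¹) * (∏ _i : Fin N, (1 - q)⁻¹) *
      (∏ i : Fin N, ∏ _j ∈ Finset.Ioi i, (-q * (1 - q ^ 2) / ((1 - q ^ 2) * (1 - q ^ 2)))) *
      (∏ i : Fin N, ∏ _j ∈ Finset.Ioi i, (-q ^ 2 * (1 - q) / ((1 - q) * (1 - q)))) =
      (q / (1 - q ^ 2)) ^ N * (1 / 3) ^ (N * (N - 1) / 2) := by
    rw [HM_const, HM_const, Finset.prod_const, Finset.prod_const, Finset.card_univ,
      Fintype.card_fin, ← mul_pow, ← mul_pow, mul_assoc, ← mul_pow]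
    congr 1
    · congr 1
      field_simp
    · congr 1
      rw [← hq4]
      field_simp
      linear_combination hq3
  rw [hval] at l6
  exact l6

end Pool.Agent.H160R2.HL
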