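import Pool.Agent.H160R2.HL.Defs
import Pool.Agent.H974R3.Alt

/-! # Task HV of helper160 (values of the bialternants at ones), by helper301 -/

set_option autoImplicit false

namespace Pool.Agent.H160R2.HL
open Finset Filter Topology
open Pool.Agent.H974R3 Pool.Agent.H160R2.OA

lemma hv_even (r b : ℕ) : (aexp r (2 * b) : ℂ) = 3 * (b : ℂ) := by
  have : aexp r (2 * b) = 3 * b := by
    unfold aexp
    have h1 : 2 * b / 2 = b := by omega
    have h2 : 2 * b % 2 = 0 := by omega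
    rw [h1, h2]; ring
  rw [this]; push_cast; ring

lemma hv_odd (r b : ℕ) : (aexp r (2 * b + 1) : ℂ) = 3 * (b : ℂ) + r := by
  have : aexp r (2 * b + 1) = 3 * b + r := by
    unfold aexp
    have h1 : (2 * b + 1) / 2 = b := by omega
    have h2 : (2 * b + 1) % 2 = 1 := by omega
    rw [h1, h2]; ring
  rw [this]; push_cast; ring

lemma hv_prod2 (f : ℕ → ℂ) (N : ℕ) :
    ∏ i ∈ range (2 * N), f i = ∏ b ∈ range N, (f (2 * b) * f (2 * b + 1)) := by
  induction N with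
  | zero => simp
  | succ N ih =>
    have h : 2 * (N + 1) = 2 * N + 1 + 1 := by ring
    rw [h, Finset.prod_range_succ, Finset.prod_range_succ, ih, Finset.prod_range_succ]
    ring

/-- the double product with complex differences -/
noncomputable def hvD (r N : ℕ) : ℂ :=
  ∏ j ∈ range N, ∏ i ∈ range j, ((aexp r j : ℂ) - (aexp r i : ℂ))

lemma hvD_eq (r : ℕ) (hr : r = 1 ∨ r = 2) (N : ℕ) :
    ∏ j ∈ range N, ∏ i ∈ range j, ((aexp r j - aexp r i : ℕ) : ℂ) = hvD r N := by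
  unfold hvD
  refine Finset.prod_congr rfl fun j _ => Finset.prod_congr rfl fun i hi => ?_
  rw [Nat.cast_sub (AltAux.aexp_lt hr (Finset.mem_range.mp hi)).le]

lemma hv_reflect (h : ℂ → ℂ) (N : ℕ) :
    ∏ b ∈ range N, h (3 * (N : ℂ) - 3 * (b : ℂ)) = ∏ d ∈ range N, h (3 * (d : ℂ) + 3) := by
  rw [← Finset.prod_range_reflect (fun d : ℕ => h (3 * (d : ℂ) + 3)) N]
  refine Finset.prod_congr rfl fun b hb => ?_
  have hb' := Finset.mem_range.mp hb
  have h1 : ((N - 1 - b : ℕ) : ℂ) = (N : ℂ) - 1 - b := by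
    rw [Nat.cast_sub (by omega), Nat.cast_sub (by omega)]
    push_cast; ring
  rw [h1]
  congr 1
  ring

lemma hvD_step (r N : ℕ) :
    hvD r (2 * (N + 1)) = hvD r (2 * N) *
      ((∏ d ∈ range N, (3 * (d : ℂ) + 3)) * (∏ d ∈ range N, (3 * (d : ℂ) + 3 - r)) *
       ((∏ d ∈ range N, (3 * (d : ℂ) + 3 + r)) * (∏ d ∈ range N, (3 * (d : ℂ) + 3)) * r)) := by
  have h : 2 * (N + 1) = 2 * N + 1 + 1 := by ring
  have e1 : ∏ i ∈ range (2 * N), ((aexp r (2 * N) : ℂ) - (aexp r i : ℂ)) =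
      (∏ d ∈ range N, (3 * (d : ℂ) + 3)) * (∏ d ∈ range N, (3 * (d : ℂ) + 3 - r)) := by
    rw [hv_prod2, Finset.prod_mul_distrib]
    congr 1
    · rw [← hv_reflect (fun x => x) N]
      refine Finset.prod_congr rfl fun b _ => ?_
      rw [hv_even, hv_even]
    · rw [← hv_reflect (fun x => x - r) N]
      refine Finset.prod_congr rfl fun b _ => ?_
      rw [hv_even, hv_odd]; ring
  have e2 : ∏ i ∈ range (2 * N + 1), ((aexp r (2 * N + 1) : ℂ) - (aexp r i : ℂ)) =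
      (∏ d ∈ range N, (3 * (d : ℂ) + 3 + r)) * (∏ d ∈ range N, (3 * (d : ℂ) + 3)) * r := by
    rw [Finset.prod_range_succ, hv_prod2, Finset.prod_mul_distrib]
    congr 1
    · congr 1
      · rw [← hv_reflect (fun x => x + r) N]
        refine Finset.prod_congr rfl fun b _ => ?_
        rw [hv_even, hv_odd]; ring
      · rw [← hv_reflect (fun x => x) N]
        refine Finset.prod_congr rfl fun b _ => ?_
        rw [hv_odd, hv_odd]; ring
    · rw [hv_even, hv_odd]; ring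
  unfold hvD
  rw [h, Finset.prod_range_succ, Finset.prod_range_succ, e1, e2]
  ring

lemma hv_tel1 (N : ℕ) : (∏ d ∈ range N, (3 * (d : ℂ) + 1)) * (3 * (N : ℂ) + 1) =
    ∏ d ∈ range N, (3 * (d : ℂ) + 4) := by
  induction N with
  | zero => simp
  | succ N ih =>
    rw [Finset.prod_range_succ, Finset.prod_range_succ, ← ih]
    push_cast; ring

lemma hv_tel2 (N : ℕ) : (∏ d ∈ range N, (3 * (d : ℂ) + 5)) * 2 =
    (∏ d ∈ range N, (3 * (d : ℂ) + 2)) * (3 * (N : ℂ) + 2) := by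
  induction N with
  | zero => simp
  | succ N ih =>
    rw [Finset.prod_range_succ, Finset.prod_range_succ]
    have : (∏ d ∈ range N, (3 * (d : ℂ) + 5)) * (3 * (N : ℂ) + 5) * 2 =
        ((∏ d ∈ range N, (3 * (d : ℂ) + 5)) * 2) * (3 * (N : ℂ) + 5) := by ring
    rw [this, ih]
    push_cast; ring

lemma hvD_ratio (N : ℕ) :
    hvD 2 (2 * N) * ∏ k ∈ range N, (3 * (k : ℂ) + 1) =
      hvD 1 (2 * N) * ∏ k ∈ range N, (3 * (k : ℂ) + 2) := by
  induction N with
  | zero => simp [hvD]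
  | succ N ih =>
    rw [hvD_step, hvD_step, Finset.prod_range_succ, Finset.prod_range_succ]
    have a1 : ∏ d ∈ range N, (3 * (d : ℂ) + 3 - ((2 : ℕ) : ℂ)) = ∏ d ∈ range N, (3 * (d : ℂ) + 1) :=
      Finset.prod_congr rfl fun d _ => by push_cast; ring
    have a2 : ∏ d ∈ range N, (3 * (d : ℂ) + 3 + ((2 : ℕ) : ℂ)) = ∏ d ∈ range N, (3 * (d : ℂ) + 5) :=
      Finset.prod_congr rfl fun d _ => by push_cast; ring
    have a3 : ∏ d ∈ range N, (3 * (d : ℂ) + 3 - ((1 : ℕ) : ℂ)) = ∏ d ∈ range N, (3 * (d : ℂ) + 2) :=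
      Finset.prod_congr rfl fun d _ => by push_cast; ring
    have a4 : ∏ d ∈ range N, (3 * (d : ℂ) + 3 + ((1 : ℕ) : ℂ)) = ∏ d ∈ range N, (3 * (d : ℂ) + 4) :=
      Finset.prod_congr rfl fun d _ => by push_cast; ring
    rw [a1, a2, a3, a4, ← hv_tel1 N]
    have t2 := hv_tel2 N
    push_cast
    generalize (∏ d ∈ range N, (3 * (d : ℂ) + 1)) = A at *
    generalize (∏ d ∈ range N, (3 * (d : ℂ) + 2)) = B' at *
    generalize (∏ d ∈ range N, (3 * (d : ℂ) + 5)) = C at *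
    generalize (∏ d ∈ range N, (3 * (d : ℂ) + 3)) = P at *
    generalize hvD 2 (2 * N) = X at *
    generalize hvD 1 (2 * N) = Y at *
    linear_combination (P * P * A * (3 * (N : ℂ) + 1) * (3 * (N : ℂ) + 2) * B') * ih +
      (X * P * P * A * A * (3 * (N : ℂ) + 1)) * t2

lemma hvD_ne (N : ℕ) : hvD 1 N ≠ 0 := by
  unfold hvD
  rw [Finset.prod_ne_zero_iff]
  intro j _
  rw [Finset.prod_ne_zero_iff]
  intro i hi
  rw [sub_ne_zero]
  intro h
  have h1 := AltAux.aexp_lt (r := 1) (Or.inl rfl) (Finset.mem_range.mp hi)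
  have h2 : aexp 1 j = aexp 1 i := by exact_mod_cast h
  omega

lemma hvV_ne (N : ℕ) : ∏ j ∈ range N, ∏ i ∈ range j, ((j - i : ℕ) : ℂ) ≠ 0 := by
  rw [Finset.prod_ne_zero_iff]
  intro j _
  rw [Finset.prod_ne_zero_iff]
  intro i hi
  have := Finset.mem_range.mp hi
  have h : j - i ≠ 0 := by omega
  exact_mod_cast h

theorem gg_ratio (N : ℕ) :
    AltAux.gg 2 (List.replicate (N + N) (1 : ℂ)) * ∏ k ∈ range N, (3 * (k : ℂ) + 1)
      = AltAux.gg 1 (List.replicate (N + N) (1 : ℂ)) * ∏ k ∈ range N, (3 * (k : ℂ) + 2) := by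
  rw [← two_mul]
  have h1 := AltAux.ones 1 (Or.inl rfl) (2 * N)
  have h2 := AltAux.ones 2 (Or.inr rfl) (2 * N)
  rw [hvD_eq 1 (Or.inl rfl)] at h1
  rw [hvD_eq 2 (Or.inr rfl)] at h2
  have h3 := hvD_ratio N
  rw [← h1, ← h2, mul_assoc, mul_assoc] at h3
  exact mul_left_cancel₀ (hvV_ne _) h3

theorem gg_ne (N : ℕ) : AltAux.gg 1 (List.replicate (N + N) (1 : ℂ)) ≠ 0 := by
  have h1 := AltAux.ones 1 (Or.inl rfl) (N + N)
  rw [hvD_eq 1 (Or.inl rfl)] at h1
  intro h0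
  rw [h0, mul_zero] at h1
  exact hvD_ne _ h1.symm

end Pool.Agent.H160R2.HL
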