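import Pool.Agent.H160R2.HL.Defs
import Pool.Agent.H160R2.HL.Val
import Pool.Agent.H160R2.HL.Main
import Pool.Agent.H160R2.HL.Alt

/-! # Task HC of helper160 (exact calibration), by helper301 -/

set_option autoImplicit false

namespace Pool.Agent.H160R2.HL
open Finset Filter Topology
open Pool.Agent.H974R3 Pool.Agent.H160R2.OA


lemma hc_q3 {q : ℂ} (hq : q ^ 2 + q + 1 = 0) : q ^ 3 = 1 := by
  linear_combination (q - 1) * hq

lemma hc_norm {q : ℂ} (hq : q ^ 2 + q + 1 = 0) : ‖q‖ = 1 := by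
  have h := congrArg norm (hc_q3 hq)
  rw [norm_pow, norm_one] at h
  exact (pow_eq_one_iff_of_nonneg (norm_nonneg q) (by norm_num)).mp h

lemma hc_q_ne {q : ℂ} (hq : q ^ 2 + q + 1 = 0) : q ≠ 0 := by
  intro h; rw [h] at hq; norm_num at hq

lemma hc_q2_ne {q : ℂ} (hq : q ^ 2 + q + 1 = 0) : 1 - q ^ 2 ≠ 0 := by
  intro h
  have h1 : q ^ 2 = 1 := by linear_combination -h
  have h2 : q = -2 := by linear_combination hq - h1
  rw [h2] at h1; norm_num at h1

lemma hc_c {q : ℂ} (hq : q ^ 2 + q + 1 = 0) : ‖q - q ^ 2‖ = ‖1 - q ^ 2‖ := by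
  have h : q - q ^ 2 = -(q ^ 2) * (1 - q ^ 2) + (q - q ^ 2 + q ^ 2 - q ^ 4) := by ring
  have h' : q - q ^ 2 = -(q ^ 2) * (1 - q ^ 2) := by
    rw [h]
    linear_combination (-q) * hc_q3 hq
  rw [h', norm_mul, norm_neg, norm_pow, hc_norm hq]
  ring

/-- the two kernels -/
lemma hc_den {q x y : ℂ} (hq : q ^ 2 + q + 1 = 0) :
    (q ^ 2 * x - q * y) * (q ^ 2 * y - q * x) = -(x ^ 2 + x * y + y ^ 2) := by
  linear_combination (q * x * y * (q - 1) + x * y - (x ^ 2 + y ^ 2) * (q - 1)) * hq +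
    (q ^ 2 * x * y - x * y) * hq - (q ^ 2 * x * y - x * y) * hq

lemma hc_ne {q x y : ℂ} (hq : q ^ 2 + q + 1 = 0) (h : x ^ 3 ≠ y ^ 3) :
    x - y ≠ 0 ∧ x ^ 2 + x * y + y ^ 2 ≠ 0 ∧ q ^ 2 * x - q * y ≠ 0 ∧ q ^ 2 * y - q * x ≠ 0 := by
  have h0 : (x - y) * (x ^ 2 + x * y + y ^ 2) ≠ 0 := by
    have : (x - y) * (x ^ 2 + x * y + y ^ 2) = x ^ 3 - y ^ 3 := by ring
    rw [this]; exact sub_ne_zero.mpr h
  have h1 := left_ne_zero_of_mul h0
  have h2 := right_ne_zero_of_mul h0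
  have h3 : (q ^ 2 * x - q * y) * (q ^ 2 * y - q * x) ≠ 0 := by
    rw [hc_den hq]; exact neg_ne_zero.mpr h2
  exact ⟨h1, h2, left_ne_zero_of_mul h3, right_ne_zero_of_mul h3⟩

lemma hc_ker1 {q x y : ℂ} (hq : q ^ 2 + q + 1 = 0) (h : x ^ 3 ≠ y ^ 3) :
    1 / (q ^ 2 * x - q * y) + 1 / (q ^ 2 * y - q * x) =
      (q - q ^ 2) * ((x ^ 2 - y ^ 2) / (x ^ 3 - y ^ 3)) := by
  obtain ⟨h1, h2, h3, h4⟩ := hc_ne hq h
  have h5 : x ^ 3 - y ^ 3 ≠ 0 := sub_ne_zero.mpr h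
  have h6 : x ^ 3 - y ^ 3 = (x - y) * (x ^ 2 + x * y + y ^ 2) := by ring
  have e : 1 / (q ^ 2 * x - q * y) + 1 / (q ^ 2 * y - q * x) =
      ((q ^ 2 * y - q * x) + (q ^ 2 * x - q * y)) / ((q ^ 2 * x - q * y) * (q ^ 2 * y - q * x)) := by
    rw [div_add_div _ _ h3 h4]
    congr 1
    ring
  rw [e, hc_den hq, h6]
  field_simp
  ring

lemma hc_ker2 {q x y : ℂ} (hq : q ^ 2 + q + 1 = 0) (h : x ^ 3 ≠ y ^ 3) :
    1 / (q ^ 2 * x - q * y) + q ^ 2 / (q ^ 2 * y - q * x) =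
      (1 - q ^ 2) * (y * ((x ^ 1 - y ^ 1) / (x ^ 3 - y ^ 3))) := by
  obtain ⟨h1, h2, h3, h4⟩ := hc_ne hq h
  have h6 : x ^ 3 - y ^ 3 = (x - y) * (x ^ 2 + x * y + y ^ 2) := by ring
  have e : 1 / (q ^ 2 * x - q * y) + q ^ 2 / (q ^ 2 * y - q * x) =
      ((q ^ 2 * y - q * x) + q ^ 2 * (q ^ 2 * x - q * y)) /
        ((q ^ 2 * x - q * y) * (q ^ 2 * y - q * x)) := by
    rw [div_add_div _ _ h3 h4]
    congr 1
    ring
  have e2 : (q ^ 2 * y - q * x) + q ^ 2 * (q ^ 2 * x - q * y) = -(1 - q ^ 2) * y := by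
    linear_combination (q * x - y) * hc_q3 hq
  rw [e, hc_den hq, h6, e2, pow_one, pow_one]
  field_simp

/-- real sequences -/
noncomputable def hcX (t k : ℕ) : ℝ := 1 + 1 / ((t : ℝ) + 1) * ((k : ℝ) + 1)

lemma hcX_gt (t k : ℕ) : 1 < hcX t k := by
  unfold hcX
  have : 0 < 1 / ((t : ℝ) + 1) * ((k : ℝ) + 1) := by positivity
  linarith

lemma hcX_inj (t : ℕ) : Function.Injective (hcX t) := by
  intro a b h
  unfold hcX at h
  have h0 : (1 / ((t : ℝ) + 1)) ≠ 0 := by positivity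
  have h1 := add_left_cancel h
  have h2 := mul_left_cancel₀ h0 h1
  have h3 : (a : ℝ) = b := by linarith
  exact_mod_cast h3

lemma hcX_lim (k : ℕ) : Tendsto (fun t => hcX t k) atTop (𝓝 1) := by
  unfold hcX
  have h := (tendsto_one_div_add_atTop_nhds_zero_nat (𝕜 := ℝ)).mul_const ((k : ℝ) + 1)
  have h2 := h.const_add 1
  simpa using h2

theorem calib (q : ℂ) (hq : q ^ 2 + q + 1 = 0) (N : ℕ) :
    ‖(wB N 1).det‖ * ∏ k ∈ range N, (3 * (k : ℝ) + 1)
      = ‖(wB N q).det‖ * ∏ k ∈ range N, (3 * (k : ℝ) + 2) := by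
  classical
  set x : ℕ → ℕ → ℂ := fun t k => ((hcX t k : ℝ) : ℂ) with hx
  set y : ℕ → ℕ → ℂ := fun t k => (((hcX t k)⁻¹ : ℝ) : ℂ) with hy
  have hxl : ∀ k, Tendsto (fun t => x t k) atTop (𝓝 1) := by
    intro k
    have h := (Complex.continuous_ofReal.tendsto (1 : ℝ)).comp (hcX_lim k)
    simpa [hx, Function.comp_def] using h
  have hyl : ∀ k, Tendsto (fun t => y t k) atTop (𝓝 1) := by
    intro k
    have h0 : Tendsto (fun t => (hcX t k)⁻¹) atTop (𝓝 1) := by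
      simpa using (hcX_lim k).inv₀ one_ne_zero
    have h := (Complex.continuous_ofReal.tendsto (1 : ℝ)).comp h0
    simpa [hy, Function.comp_def] using h
  have hxi : ∀ t, Function.Injective (x t) := by
    intro t a b h
    simp only [hx, Complex.ofReal_inj] at h
    exact hcX_inj t h
  have hyi : ∀ t, Function.Injective (y t) := by
    intro t a b h
    simp only [hy, Complex.ofReal_inj] at h
    exact hcX_inj t (inv_injective h)
  -- cubes
  have hx3 : ∀ t, Function.Injective (fun i : Fin N => x t i ^ 3) := by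
    intro t a b h
    simp only [hx] at h
    have h1 : hcX t a ^ 3 = hcX t b ^ 3 := by exact_mod_cast h
    have h2 : hcX t a = hcX t b := by
      have p1 := (hcX_gt t a); have p2 := (hcX_gt t b)
      exact (pow_left_inj₀ (by linarith) (by linarith) (by norm_num)).mp h1
    exact Fin.ext (hcX_inj t h2)
  have hxy : ∀ t, ∀ i j : Fin N, x t i ^ 3 ≠ y t j ^ 3 := by
    intro t i j h
    simp only [hx, hy] at h
    have h1 : hcX t i ^ 3 = ((hcX t j)⁻¹) ^ 3 := by exact_mod_cast h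
    have p1 := (hcX_gt t i); have p2 := (hcX_gt t j)
    have h2 : 1 < hcX t i ^ 3 := one_lt_pow₀ p1 (by norm_num)
    have h3 : (hcX t j)⁻¹ < 1 := inv_lt_one_of_one_lt₀ p2
    have h4 : ((hcX t j)⁻¹) ^ 3 < 1 := pow_lt_one₀ (by positivity) h3 (by norm_num)
    linarith
  -- the combined vector
  set u : ℕ → Fin (N + N) → ℂ := fun t => Fin.append (fun i : Fin N => x t i) (fun j : Fin N => y t j)
    with hu
  have hul : Tendsto u atTop (𝓝 (fun _ => 1)) := by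
    refine tendsto_pi_nhds.2 fun i => ?_
    refine Fin.addCases (fun a => ?_) (fun a => ?_) i
    · simp only [hu, Fin.append_left]; exact hxl a
    · simp only [hu, Fin.append_right]; exact hyl a
  have hgg : ∀ r, Tendsto (fun t => AltAux.gg r (List.ofFn (u t))) atTop
      (𝓝 (AltAux.gg r (List.replicate (N + N) (1 : ℂ)))) := by
    intro r
    have h := ((AltAux.cont r (N + N)).tendsto (fun _ => 1)).comp hul
    rw [List.ofFn_const] at h
    exact h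
  -- kernel determinants
  set K : ℂ → ℕ → ℂ := fun w t => (Matrix.of fun i j : Fin N =>
        1 / (q ^ 2 * x t i - q * y t j) + w / (q ^ 2 * y t j - q * x t i)).det with hK
  set A : ℕ → ℕ → ℂ := fun r t => (Matrix.of fun i j : Fin N =>
        (x t i ^ r - y t j ^ r) / (x t i ^ 3 - y t j ^ 3)).det with hA
  have hK1 : ∀ t, ‖K 1 t‖ = ‖q - q ^ 2‖ ^ N * ‖A 2 t‖ := by
    intro t
    have : K 1 t = (q - q ^ 2) ^ N * A 2 t := by
      simp only [hK, hA]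
      have e : (Matrix.of fun i j : Fin N =>
        1 / (q ^ 2 * x t i - q * y t j) + 1 / (q ^ 2 * y t j - q * x t i)) =
        (q - q ^ 2) • (Matrix.of fun i j : Fin N =>
        (x t i ^ 2 - y t j ^ 2) / (x t i ^ 3 - y t j ^ 3)) := by
        ext i j
        simp only [Matrix.of_apply, Matrix.smul_apply, smul_eq_mul]
        exact hc_ker1 hq (hxy t i j)
      rw [e, Matrix.det_smul, Fintype.card_fin]
    rw [this, norm_mul, norm_pow]
  have hKq : ∀ t, ‖K (q ^ 2) t‖ = ‖1 - q ^ 2‖ ^ N * ((∏ j : Fin N, ‖y t j‖) * ‖A 1 t‖) := by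
    intro t
    have : K (q ^ 2) t = (1 - q ^ 2) ^ N * ((∏ j : Fin N, y t j) * A 1 t) := by
      simp only [hK, hA]
      have e : (Matrix.of fun i j : Fin N =>
        1 / (q ^ 2 * x t i - q * y t j) + q ^ 2 / (q ^ 2 * y t j - q * x t i)) =
        (1 - q ^ 2) • (Matrix.of fun i j : Fin N => y t j *
        (Matrix.of fun i j : Fin N => (x t i ^ 1 - y t j ^ 1) / (x t i ^ 3 - y t j ^ 3)) i j) := by
        ext i j
        simp only [Matrix.of_apply, Matrix.smul_apply, smul_eq_mul]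
        exact hc_ker2 hq (hxy t i j)
      rw [e, Matrix.det_smul, Fintype.card_fin]
      congr 1
      exact Matrix.det_mul_row (fun j : Fin N => y t j) _
    rw [this, norm_mul, norm_pow, norm_mul, norm_prod]
  have hAlt : ∀ r t, ‖A r t‖ * ∏ i : Fin N, ∏ j : Fin N, ‖x t i ^ 3 - y t j ^ 3‖ =
      ‖(Matrix.vandermonde (u t)).det‖ * ‖AltAux.gg r (List.ofFn (u t))‖ := by
    intro r t
    have h := alt_ker r N (fun i => x t i) (fun j => y t j) (hx3 t) (hxy t)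
    have hb := AltAux.bialt (aexp r) (u t)
    have hgg' : AltAux.Dm (aexp r) (N + N) (AltAux.Hs (List.ofFn (u t))) =
        AltAux.gg r (List.ofFn (u t)) := by
      unfold AltAux.gg; rw [List.length_ofFn]
    rw [hgg'] at hb
    rw [← norm_mul, ← hb]
    exact h
  have hkey : ∀ t, ‖K 1 t‖ * ‖AltAux.gg 1 (List.ofFn (u t))‖ * (∏ j : Fin N, ‖y t j‖) =
      ‖K (q ^ 2) t‖ * ‖AltAux.gg 2 (List.ofFn (u t))‖ := by
    intro t
    have hP : (∏ i : Fin N, ∏ j : Fin N, ‖x t i ^ 3 - y t j ^ 3‖) ≠ 0 := by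
      refine Finset.prod_ne_zero_iff.mpr fun i _ => Finset.prod_ne_zero_iff.mpr fun j _ => ?_
      exact norm_ne_zero_iff.mpr (sub_ne_zero.mpr (hxy t i j))
    have h1 := hAlt 1 t
    have h2 := hAlt 2 t
    have hc : ‖A 2 t‖ * ‖AltAux.gg 1 (List.ofFn (u t))‖ = ‖A 1 t‖ * ‖AltAux.gg 2 (List.ofFn (u t))‖ := by
      apply mul_right_cancel₀ hP
      linear_combination ‖AltAux.gg 1 (List.ofFn (u t))‖ * h2 - ‖AltAux.gg 2 (List.ofFn (u t))‖ * h1
    rw [hK1, hKq, hc_c hq]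
    linear_combination (‖1 - q ^ 2‖ ^ N * (∏ j : Fin N, ‖y t j‖)) * hc
  -- limits
  set Vd : ℕ → ℂ := fun t => (Matrix.vandermonde (fun i : Fin N => x t i)).det
          * (Matrix.vandermonde (fun i : Fin N => y t i)).det with hVd
  set c0 : ℂ := (q / (1 - q ^ 2)) ^ N * (1 / 3) ^ (N * (N - 1) / 2) with hc0
  have hc0ne : c0 ≠ 0 := by
    rw [hc0]
    refine mul_ne_zero (pow_ne_zero _ (div_ne_zero (hc_q_ne hq) (hc_q2_ne hq))) ?_
    exact pow_ne_zero _ (by norm_num)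
  have hlim : ∀ w : ℂ, Tendsto (fun t => K w t / Vd t) atTop
      (𝓝 (c0 * ((1 : Matrix (Fin N) (Fin N) ℂ) + w • (B N).map (fun x : ℝ => (x : ℂ))).det)) := by
    intro w
    exact hom_lim q hq N w atTop x y hxl hyl (Eventually.of_forall hxi) (Eventually.of_forall hyi)
  clear_value c0
  have hyp : Tendsto (fun t => ∏ j : Fin N, ‖y t j‖) atTop (𝓝 1) := by
    have h : Tendsto (fun t => ∏ j : Fin N, ‖y t j‖) atTop (𝓝 (∏ j : Fin N, ‖(1 : ℂ)‖)) :=
      tendsto_finsetProd _ fun j _ => (hyl j).norm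
    simpa using h
  have hL := ((hlim 1).norm.mul (hgg 1).norm).mul hyp
  have hR := (hlim (q ^ 2)).norm.mul (hgg 2).norm
  have hEq : (fun t => ‖K 1 t / Vd t‖ * ‖AltAux.gg 1 (List.ofFn (u t))‖ * ∏ j : Fin N, ‖y t j‖) =
      (fun t => ‖K (q ^ 2) t / Vd t‖ * ‖AltAux.gg 2 (List.ofFn (u t))‖) := by
    funext t
    rw [norm_div, norm_div]
    have h := hkey t
    calc ‖K 1 t‖ / ‖Vd t‖ * ‖AltAux.gg 1 (List.ofFn (u t))‖ * ∏ j : Fin N, ‖y t j‖
        = (‖K 1 t‖ * ‖AltAux.gg 1 (List.ofFn (u t))‖ * (∏ j : Fin N, ‖y t j‖)) / ‖Vd t‖ := by ring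
      _ = (‖K (q ^ 2) t‖ * ‖AltAux.gg 2 (List.ofFn (u t))‖) / ‖Vd t‖ := by rw [h]
      _ = _ := by ring
  rw [hEq] at hL
  have huniq := tendsto_nhds_unique hL hR
  rw [norm_mul, norm_mul, mul_one] at huniq
  -- rewrite determinants
  have d1 : ((1 : Matrix (Fin N) (Fin N) ℂ) + (1 : ℂ) • (B N).map (fun x : ℝ => (x : ℂ))).det =
      (wB N 1).det := by
    unfold wB; rw [one_smul, one_smul]
  have d2 : ‖((1 : Matrix (Fin N) (Fin N) ℂ) + (q ^ 2) • (B N).map (fun x : ℝ => (x : ℂ))).det‖ =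
      ‖(wB N q).det‖ := by
    have e : ((1 : Matrix (Fin N) (Fin N) ℂ) + (q ^ 2) • (B N).map (fun x : ℝ => (x : ℂ))) =
        (q ^ 2) • wB N q := by
      unfold wB
      rw [smul_add, smul_smul]
      have : q ^ 2 * q = 1 := by rw [← hc_q3 hq]; ring
      rw [this, one_smul]
    rw [e, Matrix.det_smul, norm_mul, norm_pow, norm_pow, hc_norm hq]
    simp
  rw [d1, d2] at huniq
  have hnorm : ‖c0‖ ≠ 0 := norm_ne_zero_iff.mpr hc0ne
  have hfin : ‖(wB N 1).det‖ * ‖AltAux.gg 1 (List.replicate (N + N) (1 : ℂ))‖ =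
      ‖(wB N q).det‖ * ‖AltAux.gg 2 (List.replicate (N + N) (1 : ℂ))‖ := by
    apply mul_left_cancel₀ hnorm
    linear_combination huniq
  have hrat := congrArg norm (gg_ratio N)
  rw [norm_mul, norm_mul, norm_prod, norm_prod] at hrat
  have n1 : ∏ k ∈ range N, ‖(3 * (k : ℂ) + 1)‖ = ∏ k ∈ range N, (3 * (k : ℝ) + 1) := by
    refine Finset.prod_congr rfl fun k _ => ?_
    have : (3 * (k : ℂ) + 1) = (((3 * (k : ℝ) + 1 : ℝ)) : ℂ) := by push_cast; ring
    rw [this, Complex.norm_real, Real.norm_of_nonneg (by positivity)]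
  have n2 : ∏ k ∈ range N, ‖(3 * (k : ℂ) + 2)‖ = ∏ k ∈ range N, (3 * (k : ℝ) + 2) := by
    refine Finset.prod_congr rfl fun k _ => ?_
    have : (3 * (k : ℂ) + 2) = (((3 * (k : ℝ) + 2 : ℝ)) : ℂ) := by push_cast; ring
    rw [this, Complex.norm_real, Real.norm_of_nonneg (by positivity)]
  rw [n1, n2] at hrat
  have hg1 : ‖AltAux.gg 1 (List.replicate (N + N) (1 : ℂ))‖ ≠ 0 := norm_ne_zero_iff.mpr (gg_ne N)
  apply mul_right_cancel₀ hg1
  linear_combination (∏ k ∈ range N, (3 * (k : ℝ) + 1)) * hfin + ‖(wB N q).det‖ * hrat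

end Pool.Agent.H160R2.HL
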