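import Pool.Agent.H160R2.OA.Defs

/-! # Definitions for the homogeneous limit of the determinant -/

set_option autoImplicit false

namespace Pool.Agent.H160R2.HL

/-- two-index array: `T(a,b) (1 - s_a - r_b) = T(a-1,b) + T(a,b-1)`, source 1 at (0,0) -/
noncomputable def TT (s r : ℕ → ℂ) : ℕ → ℕ → ℂ
  | 0, 0 => 1 / (1 - s 0 - r 0)
  | 0, (b + 1) => TT s r 0 b / (1 - s 0 - r (b + 1))
  | (a + 1), 0 => TT s r a 0 / (1 - s (a + 1) - r 0)
  | (a + 1), (b + 1) => (TT s r a (b + 1) + TT s r (a + 1) b) / (1 - s (a + 1) - r (b + 1))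

/-- two-index array: `U(a,b) (1 - s_a r_b) = s_a U(a,b-1) + r_b U(a-1,b) + U(a-1,b-1)`,
source 1 at (0,0) -/
noncomputable def UU (s r : ℕ → ℂ) : ℕ → ℕ → ℂ
  | 0, 0 => 1 / (1 - s 0 * r 0)
  | 0, (b + 1) => s 0 * UU s r 0 b / (1 - s 0 * r (b + 1))
  | (a + 1), 0 => r 0 * UU s r a 0 / (1 - s (a + 1) * r 0)
  | (a + 1), (b + 1) => (s (a + 1) * UU s r (a + 1) b + r (b + 1) * UU s r a (b + 1) + UU s r a b)
      / (1 - s (a + 1) * r (b + 1))

end Pool.Agent.H160R2.HL
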