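import Pool.Agent.H160R2.OA.Final
import Pool.Agent.H160R2.HL.Calib

/-! Task HF: unconditional lower bound for the determinants. -/

set_option autoImplicit false

namespace Pool.Agent.H160R2.HL
open Finset MeasureTheory
open Pool.Agent.H160R2.OA

theorem prod_bound (N : ℕ) (hN : 1 ≤ N) :
    ∏ k ∈ range N, (3 * (k : ℝ) + 2) ≤ 2 * (N : ℝ) ^ (1 / 3 : ℝ) *
      ∏ k ∈ range N, (3 * (k : ℝ) + 1) := by
  induction N, hN using Nat.le_induction with
  | base => simp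
  | succ n hn ih =>
    have hn0 : (0 : ℝ) < n := by exact_mod_cast hn
    rw [prod_range_succ, prod_range_succ (n := n)]
    have hP : 0 < ∏ k ∈ range n, (3 * (k : ℝ) + 1) := prod_pos fun k _ => by positivity
    have key : (n : ℝ) ^ (1 / 3 : ℝ) * (3 * (n : ℝ) + 2) ≤
        ((n + 1 : ℕ) : ℝ) ^ (1 / 3 : ℝ) * (3 * (n : ℝ) + 1) := by
      have h1 : 0 ≤ (n : ℝ) ^ (1 / 3 : ℝ) * (3 * (n : ℝ) + 2) := by positivity
      have h2 : 0 ≤ ((n + 1 : ℕ) : ℝ) ^ (1 / 3 : ℝ) * (3 * (n : ℝ) + 1) := by positivity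
      refine le_of_pow_le_pow_left₀ (n := 3) (by norm_num) h2 ?_
      rw [mul_pow, mul_pow, ← Real.rpow_natCast, ← Real.rpow_mul hn0.le, ← Real.rpow_natCast
        (((n + 1 : ℕ) : ℝ) ^ (1 / 3 : ℝ)), ← Real.rpow_mul (by positivity)]
      norm_num
      nlinarith [hn0, sq_nonneg (n : ℝ)]
    calc (∏ k ∈ range n, (3 * (k : ℝ) + 2)) * (3 * (n : ℝ) + 2)
        ≤ (2 * (n : ℝ) ^ (1 / 3 : ℝ) * ∏ k ∈ range n, (3 * (k : ℝ) + 1)) * (3 * (n : ℝ) + 2) :=
          mul_le_mul_of_nonneg_right ih (by positivity)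
      _ = 2 * (∏ k ∈ range n, (3 * (k : ℝ) + 1)) * ((n : ℝ) ^ (1 / 3 : ℝ) * (3 * (n : ℝ) + 2)) := by
          ring
      _ ≤ 2 * (∏ k ∈ range n, (3 * (k : ℝ) + 1)) *
          (((n + 1 : ℕ) : ℝ) ^ (1 / 3 : ℝ) * (3 * (n : ℝ) + 1)) :=
          mul_le_mul_of_nonneg_left key (by positivity)
      _ = 2 * ((n + 1 : ℕ) : ℝ) ^ (1 / 3 : ℝ) *
          ((∏ k ∈ range n, (3 * (k : ℝ) + 1)) * (3 * (n : ℝ) + 1)) := by ring

/-- the calibration in logarithmic form -/
theorem calib_log (L : ℕ) (hL : 1 ≤ L) :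
    Real.log ‖(wB L (Complex.exp ((0 : ℝ) * Complex.I))).det‖ ≤
      Real.log 2 + 1 / 3 * Real.log L +
        Real.log ‖(wB L (Complex.exp ((2 * Real.pi / 3 : ℝ) * Complex.I))).det‖ := by
  have hπ := Real.pi_pos
  obtain ⟨μ, hμ⟩ := det_wB L (by omega) (Z_herm L)
  have hp0 := (Z_log_det hμ (θ := 0) le_rfl hπ).1
  have hp3 := (Z_log_det hμ (θ := 2 * Real.pi / 3) (by positivity) (by linarith)).1
  have hLpos : (0 : ℝ) < L := by exact_mod_cast hL
  set q : ℂ := Complex.exp ((2 * Real.pi / 3 : ℝ) * Complex.I) with hq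
  have hq1 : q ^ 2 + q + 1 = 0 := by
    have h3 : q ^ 3 = 1 := by
      rw [hq, ← Complex.exp_nat_mul]
      rw [show ((3 : ℕ) : ℂ) * (((2 * Real.pi / 3 : ℝ) : ℂ) * Complex.I) = 2 * Real.pi * Complex.I by
        push_cast; ring]
      exact Complex.exp_two_pi_mul_I
    have hne : q ≠ 1 := by
      intro h
      have := congrArg Complex.re h
      rw [hq, Complex.exp_ofReal_mul_I_re, Complex.one_re] at this
      have h4 : Real.cos (2 * Real.pi / 3) = -(1 / 2) := by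
        rw [show 2 * Real.pi / 3 = Real.pi - Real.pi / 3 by ring, Real.cos_pi_sub,
          Real.cos_pi_div_three]
      rw [h4] at this
      norm_num at this
    have h5 : (q - 1) * (q ^ 2 + q + 1) = 0 := by linear_combination h3
    rcases mul_eq_zero.mp h5 with h | h
    · exact absurd (sub_eq_zero.mp h) hne
    · exact h
  have hc := calib q hq1 L
  have hb := prod_bound L hL
  have hP : 0 < ∏ k ∈ range L, (3 * (k : ℝ) + 1) := prod_pos fun k _ => by positivity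
  have e0 : Complex.exp (((0 : ℝ) : ℂ) * Complex.I) = 1 := by simp
  rw [e0] at hp0 ⊢
  have h6 : ‖(wB L 1).det‖ ≤ 2 * (L : ℝ) ^ (1 / 3 : ℝ) * ‖(wB L q).det‖ := by
    have h7 : ‖(wB L 1).det‖ * ∏ k ∈ range L, (3 * (k : ℝ) + 1) ≤
        (2 * (L : ℝ) ^ (1 / 3 : ℝ) * ‖(wB L q).det‖) * ∏ k ∈ range L, (3 * (k : ℝ) + 1) := by
      rw [hc]
      calc ‖(wB L q).det‖ * ∏ k ∈ range L, (3 * (k : ℝ) + 2)
          ≤ ‖(wB L q).det‖ * (2 * (L : ℝ) ^ (1 / 3 : ℝ) * ∏ k ∈ range L, (3 * (k : ℝ) + 1)) :=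
            mul_le_mul_of_nonneg_left hb (norm_nonneg _)
        _ = _ := by ring
    exact le_of_mul_le_mul_right h7 hP
  calc Real.log ‖(wB L 1).det‖ ≤ Real.log (2 * (L : ℝ) ^ (1 / 3 : ℝ) * ‖(wB L q).det‖) :=
        Real.log_le_log hp0 h6
    _ = Real.log 2 + 1 / 3 * Real.log L + Real.log ‖(wB L q).det‖ := by
        rw [Real.log_mul (by positivity) hp3.ne', Real.log_mul (by norm_num) (by positivity),
          Real.log_rpow hLpos]

/-- the lower bound, unconditional -/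
theorem det_lower' (θ δ : ℝ) (h1 : Real.pi / 3 ≤ θ) (h2 : θ ≤ 2 * Real.pi / 3) (hδ : 0 < δ) :
    ∃ L0 : ℕ, ∀ L : ℕ, L0 ≤ L →
      (L : ℝ) ^ (-(ex θ) - δ) * ‖(wB L (Complex.exp ((Real.pi / 3 : ℝ) * Complex.I))).det‖ ≤
        ‖(wB L (Complex.exp (θ * Complex.I))).det‖ := by
  have hπ := Real.pi_pos
  have h0 : 0 ≤ θ := by linarith
  have h2' : θ < Real.pi := by linarith
  have h3 : 0 ≤ 2 * Real.pi / 3 := by positivity
  have h3' : 2 * Real.pi / 3 < Real.pi := by linarith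
  have hcos : Real.cos (2 * Real.pi / 3) ≤ Real.cos θ :=
    Real.cos_le_cos_of_nonneg_of_le_pi h0 h3'.le h2
  obtain ⟨hint, hval⟩ := integral_log θ h0 h2'
  obtain ⟨hint3, hval3⟩ := integral_log (2 * Real.pi / 3) h3 h3'
  obtain ⟨hint0, hval0⟩ := integral_log 0 le_rfl hπ
  obtain ⟨L0, hL0⟩ := sum_lower _ ((Z_cont h3 h3').sub (Z_cont h0 h2')) (by
    intro x
    simp only [Pi.sub_apply]
    rw [sub_nonneg]
    apply Real.log_le_log (div_pos (Z_pos1 x) (Z_pos h0 h2' x))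
    apply div_le_div_of_nonneg_left (Z_pos1 x).le (Z_pos h3 h3' x)
    linarith) (hint3.sub hint) (1 / 2 - 2 * ex θ - δ / 2) (by
    have e : ∫ x : ℝ, ((fun x : ℝ => Real.log ((2 * Real.cosh x + 1) /
        (2 * Real.cosh x + 2 * Real.cos (2 * Real.pi / 3)))) - (fun x : ℝ =>
        Real.log ((2 * Real.cosh x + 1) / (2 * Real.cosh x + 2 * Real.cos θ)))) x =
        4 * Real.pi ^ 2 / 9 - θ ^ 2 := by
      simp only [Pi.sub_apply]
      rw [integral_sub hint3 hint, hval, hval3]; ring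
    rw [e]
    have : 3 / (2 * Real.pi ^ 2) * (4 * Real.pi ^ 2 / 9 - θ ^ 2) = 1 / 2 - 2 * ex θ := by
      unfold ex; field_simp; ring
    rw [this]; linarith)
  obtain ⟨L1, hL1⟩ := sum_lower _ (Z_cont le_rfl hπ).neg (by
    intro x
    simp only [Pi.neg_apply]
    rw [Left.nonneg_neg_iff]
    apply Real.log_nonpos (div_pos (Z_pos1 x) (Z_pos le_rfl hπ x)).le
    rw [div_le_one (Z_pos le_rfl hπ x), Real.cos_zero]
    linarith) hint0.neg (1 / 6 - δ / 2) (by
    have e : ∫ x : ℝ, (-(fun x : ℝ => Real.log ((2 * Real.cosh x + 1) /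
        (2 * Real.cosh x + 2 * Real.cos 0)))) x = Real.pi ^ 2 / 9 := by
      simp only [Pi.neg_apply]
      rw [integral_neg, hval0]; ring
    rw [e]
    have : 3 / (2 * Real.pi ^ 2) * (Real.pi ^ 2 / 9) = 1 / 6 := by
      field_simp; norm_num
    rw [this]; linarith)
  -- absorb `log 2`
  obtain ⟨M, hM⟩ := exists_nat_gt (Real.exp (2 * Real.log 2 / δ))
  refine ⟨max (max 1 M) (max L0 L1), fun L hL => ?_⟩
  have hL1' : 1 ≤ L := le_trans (le_max_left _ _) (le_trans (le_max_left _ _) hL)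
  have hLM : M ≤ L := le_trans (le_max_right _ _) (le_trans (le_max_left _ _) hL)
  have hLL0 : L0 ≤ L := le_trans (le_max_left _ _) (le_trans (le_max_right _ _) hL)
  have hLL1 : L1 ≤ L := le_trans (le_max_right _ _) (le_trans (le_max_right _ _) hL)
  have hLpos : (0 : ℝ) < L := by exact_mod_cast hL1'
  have hlog2 : Real.log 2 ≤ δ / 2 * Real.log L := by
    have h5 : 2 * Real.log 2 / δ ≤ Real.log L := by
      rw [Real.le_log_iff_exp_le hLpos]
      exact hM.le.trans (by exact_mod_cast hLM)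
    rw [div_le_iff₀ hδ] at h5
    linarith
  obtain ⟨μ, hμ⟩ := det_wB L (by omega) (Z_herm L)
  have h4 := hL0 L hLL0 (Z_herm L) μ hμ
  simp only [Pi.sub_apply] at h4
  rw [sum_sub_distrib, Z_sum_log hμ h0 h2', Z_sum_log hμ h3 h3'] at h4
  have h5 := hL1 L hLL1 (Z_herm L) μ hμ
  simp only [Pi.neg_apply] at h5
  rw [sum_neg_distrib, Z_sum_log hμ le_rfl hπ] at h5
  have h6 := calib_log L hL1'
  have hp1 := (Z_log_det hμ h0 h2').1
  have hp2 := (Z_log_det hμ (θ := Real.pi / 3) (by positivity) (by linarith)).1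
  rw [← Real.log_le_log_iff (by positivity) hp1, Real.log_mul (by positivity) hp2.ne',
    Real.log_rpow hLpos]
  have hlogL : 0 ≤ Real.log L := Real.log_nonneg (by exact_mod_cast hL1')
  nlinarith

end Pool.Agent.H160R2.HL
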