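import Pool.Agent.H160R2.HL.Main

set_option autoImplicit false

namespace Pool.Agent.H160R2.HL
open Finset Filter Topology
open Pool.Agent.H160R2.OA

namespace HomogAux

theorem vand_sq (N : ℕ) (z : Fin N → ℂ) :
    ∏ i, ∏ j ∈ Finset.Ioi i, (z i - z j) ^ 2
      = (Matrix.vandermonde z).det * (Matrix.vandermonde z).det := by
  rw [Matrix.det_vandermonde, ← Finset.prod_mul_distrib]
  refine Finset.prod_congr rfl fun i _ => ?_
  rw [← Finset.prod_mul_distrib]
  refine Finset.prod_congr rfl fun j _ => ?_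
  ring

theorem prod_erase_const (N : ℕ) (c : ℂ) :
    (∏ i : Fin N, ∏ _j ∈ Finset.univ.erase i, c) = c ^ (N * (N - 1)) := by
  have : ∀ i : Fin N, (∏ _j ∈ Finset.univ.erase i, c) = c ^ (N - 1) := by
    intro i
    rw [Finset.prod_const, Finset.card_erase_of_mem (Finset.mem_univ i), Finset.card_univ,
      Fintype.card_fin]
  rw [Finset.prod_congr rfl fun i _ => this i, Finset.prod_const, Finset.card_univ,
    Fintype.card_fin, ← pow_mul, mul_comm]

theorem pow_id (N : ℕ) :
    ((-3 : ℂ)) ^ (N * (N - 1)) * (1 / 3) ^ (N * (N - 1) / 2) = 3 ^ (N * (N - 1) / 2) := by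
  obtain ⟨m, hm⟩ : 2 ∣ N * (N - 1) := (Nat.even_mul_pred_self N).two_dvd
  rw [hm, Nat.mul_div_cancel_left m (by norm_num), pow_mul, ← mul_pow]
  norm_num

theorem ne_of_pos (q : ℂ) (hq : q ^ 2 + q + 1 = 0) (a b : ℝ) (ha : 0 < a) (hb : 0 < b) :
    q ^ 2 * (a : ℂ) - q * (b : ℂ) ≠ 0 := by
  intro h
  have hq0 : q ≠ 0 := by
    rintro rfl
    norm_num at hq
  have h1 : q * (a : ℂ) = b := by
    have : q * (q * (a : ℂ) - b) = 0 := by linear_combination h
    rcases mul_eq_zero.mp this with h | h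
    · exact absurd h hq0
    · linear_combination h
  have hq3 : q ^ 3 = 1 := by linear_combination (q - 1) * hq
  have h2 : (a : ℂ) ^ 3 = (b : ℂ) ^ 3 := by
    rw [← h1, mul_pow, hq3, one_mul]
  have h3 : a ^ 3 = b ^ 3 := by exact_mod_cast h2
  have h4 : a = b := by
    exact (pow_left_inj₀ ha.le hb.le (by norm_num)).mp h3
  subst h4
  have ha' : (a : ℂ) ≠ 0 := by exact_mod_cast ha.ne'
  have : q = 1 := by
    have : (q - 1) * (a : ℂ) = 0 := by linear_combination h1
    rcases mul_eq_zero.mp this with h | h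
    · linear_combination h
    · exact absurd h ha'
  rw [this] at hq
  norm_num at hq

end HomogAux

theorem hom_limit (q : ℂ) (hq : q ^ 2 + q + 1 = 0) (N : ℕ) (w : ℂ) (G : (Fin N → ℂ) → ℂ)
    (hG : ContinuousAt G (fun _ => 1))
    (h : ∀ z : Fin N → ℂ, Function.Injective z → (∀ i, z i ≠ 0) →
      (∀ i j, q ^ 2 * z i - q * z j ≠ 0) →
      G z * ∏ i, ∏ j ∈ Finset.Ioi i, (z i - z j) ^ 2 =
        (∏ i, ∏ j ∈ Finset.univ.erase i, (q ^ 2 * z i - q * z j) ^ 2) * (∏ i, z i) *
        (Matrix.of fun i j : Fin N =>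
          1 / (q ^ 2 * z i - q * z j) + w / (q ^ 2 * z j - q * z i)).det) :
    G (fun _ => 1) = 3 ^ (N * (N - 1) / 2) * (q / (1 - q ^ 2)) ^ N *
      (Matrix.of fun i j : Fin N =>
        (if i = j then 1 else 0) + w * (Nat.choose ((i : ℕ) + j) i : ℂ)).det := by
  classical
  set l : Filter ℝ := 𝓝[>] (0 : ℝ) with hl
  set x : ℝ → ℕ → ℂ := fun t k => ((1 + t * k : ℝ) : ℂ) with hx
  have hcont : ∀ k : ℕ, Tendsto (fun t : ℝ => x t k) l (𝓝 1) := by
    intro k
    have h1 : Continuous (fun t : ℝ => x t k) := by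
      simp only [hx]
      fun_prop
    have h2 := h1.tendsto 0
    have h3 : x 0 k = 1 := by simp [hx]
    rw [h3] at h2
    exact h2.mono_left nhdsWithin_le_nhds
  have hpos : ∀ᶠ t in l, (0 : ℝ) < t := self_mem_nhdsWithin
  have hinj : ∀ᶠ t in l, Function.Injective (x t) := by
    filter_upwards [hpos] with t ht a b hab
    have h1 : (1 + t * a : ℝ) = 1 + t * b := Complex.ofReal_injective hab
    have h2 : t * (a : ℝ) = t * b := by linarith
    have h3 := mul_left_cancel₀ ht.ne' h2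
    exact_mod_cast h3
  have hmain := hom_lim q hq N w l x x hcont hcont hinj hinj
  set z : ℝ → Fin N → ℂ := fun t i => x t i with hz
  have hztend : Tendsto z l (𝓝 (fun _ => (1 : ℂ))) := by
    rw [tendsto_pi_nhds]
    intro i
    exact hcont i
  have hGt : Tendsto (fun t => G (z t)) l (𝓝 (G fun _ => 1)) := hG.tendsto.comp hztend
  have hq2 : (q ^ 2 * 1 - q * 1) ^ 2 = (-3 : ℂ) := by
    linear_combination (q ^ 2 - 3 * q + 3) * hq
  have hP : Tendsto (fun t => ∏ i, ∏ j ∈ Finset.univ.erase i, (q ^ 2 * z t i - q * z t j) ^ 2) l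
      (𝓝 ((-3) ^ (N * (N - 1)))) := by
    have h1 : Tendsto (fun t => ∏ i, ∏ j ∈ Finset.univ.erase i, (q ^ 2 * z t i - q * z t j) ^ 2) l
        (𝓝 (∏ i : Fin N, ∏ _j ∈ Finset.univ.erase i, (q ^ 2 * 1 - q * 1) ^ 2)) := by
      refine tendsto_finsetProd _ fun i _ => tendsto_finsetProd _ fun j _ => ?_
      exact (((hcont i).const_mul _).sub ((hcont j).const_mul _)).pow 2
    rwa [hq2, HomogAux.prod_erase_const] at h1
  have hZ : Tendsto (fun t => ∏ i, z t i) l (𝓝 1) := by
    have h1 : Tendsto (fun t => ∏ i, z t i) l (𝓝 (∏ _i : Fin N, (1 : ℂ))) :=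
      tendsto_finsetProd _ fun i _ => hcont i
    simpa using h1
  have hRHS := (hP.mul hZ).mul hmain
  have heq : ∀ᶠ t in l, G (z t) =
      (∏ i, ∏ j ∈ Finset.univ.erase i, (q ^ 2 * z t i - q * z t j) ^ 2) * (∏ i, z t i) *
      ((Matrix.of fun i j : Fin N =>
        1 / (q ^ 2 * x t i - q * x t j) + w / (q ^ 2 * x t j - q * x t i)).det
        / ((Matrix.vandermonde (fun i : Fin N => x t i)).det
          * (Matrix.vandermonde (fun i : Fin N => x t i)).det)) := by
    filter_upwards [hpos, hinj] with t ht hit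
    have hzpos : ∀ k : ℕ, (0 : ℝ) < 1 + t * k := fun k => by positivity
    have hzinj : Function.Injective (z t) := by
      intro a b hab
      exact Fin.ext (hit hab)
    have h1 := h (z t) hzinj
      (fun i => by
        have := hzpos i
        simp only [hz, hx]
        exact_mod_cast this.ne')
      (fun i j => by
        simp only [hz, hx]
        exact HomogAux.ne_of_pos q hq _ _ (hzpos i) (hzpos j))
    rw [HomogAux.vand_sq] at h1
    have hV : (Matrix.vandermonde (z t)).det ≠ 0 := Matrix.det_vandermonde_ne_zero_iff.mpr hzinj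
    have hVV : (Matrix.vandermonde (z t)).det * (Matrix.vandermonde (z t)).det ≠ 0 :=
      mul_ne_zero hV hV
    change _ = _ * (_ / ((Matrix.vandermonde (z t)).det * (Matrix.vandermonde (z t)).det))
    rw [← mul_div_assoc, eq_div_iff hVV]
    exact h1
  have hfin := tendsto_nhds_unique (hGt.congr' heq) hRHS
  rw [hfin]
  have hmat : (Matrix.of fun i j : Fin N =>
        (if i = j then 1 else 0) + w * (Nat.choose ((i : ℕ) + j) i : ℂ))
      = (1 : Matrix (Fin N) (Fin N) ℂ) + w • (B N).map (fun x : ℝ => (x : ℂ)) := by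
    ext i j
    simp [B, Matrix.one_apply]
  rw [hmat]
  have hp := HomogAux.pow_id N
  rw [mul_one, ← hp]
  ring

end Pool.Agent.H160R2.HL
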