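import Pool.Agent.H160R2.HL.Defs
import Mathlib

/-! # Kernel factorisation (task HK) -/

set_option autoImplicit false

namespace Pool.Agent.H160R2.HL
open Finset

/-! ### recurrences -/

theorem HK_T00 (s r : ℕ → ℂ) (h : 1 - s 0 - r 0 ≠ 0) : (1 - s 0 - r 0) * TT s r 0 0 = 1 := by
  rw [TT]; field_simp

theorem HK_T0 (s r : ℕ → ℂ) (b : ℕ) (h : 1 - s 0 - r (b + 1) ≠ 0) :
    (1 - s 0 - r (b + 1)) * TT s r 0 (b + 1) = TT s r 0 b := by
  conv_lhs => rw [TT]
  field_simp

theorem HK_Ta (s r : ℕ → ℂ) (a : ℕ) (h : 1 - s (a + 1) - r 0 ≠ 0) :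
    (1 - s (a + 1) - r 0) * TT s r (a + 1) 0 = TT s r a 0 := by
  conv_lhs => rw [TT]
  field_simp

theorem HK_T (s r : ℕ → ℂ) (a b : ℕ) (h : 1 - s (a + 1) - r (b + 1) ≠ 0) :
    (1 - s (a + 1) - r (b + 1)) * TT s r (a + 1) (b + 1) =
      TT s r a (b + 1) + TT s r (a + 1) b := by
  conv_lhs => rw [TT]
  field_simp

theorem HK_U00 (s r : ℕ → ℂ) (h : 1 - s 0 * r 0 ≠ 0) : (1 - s 0 * r 0) * UU s r 0 0 = 1 := by
  rw [UU]; field_simp

theorem HK_U0 (s r : ℕ → ℂ) (b : ℕ) (h : 1 - s 0 * r (b + 1) ≠ 0) :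
    (1 - s 0 * r (b + 1)) * UU s r 0 (b + 1) = s 0 * UU s r 0 b := by
  conv_lhs => rw [UU]
  rw [mul_div_assoc', mul_div_cancel_left₀ _ h]

theorem HK_Ua (s r : ℕ → ℂ) (a : ℕ) (h : 1 - s (a + 1) * r 0 ≠ 0) :
    (1 - s (a + 1) * r 0) * UU s r (a + 1) 0 = r 0 * UU s r a 0 := by
  conv_lhs => rw [UU]
  rw [mul_div_assoc', mul_div_cancel_left₀ _ h]

theorem HK_U (s r : ℕ → ℂ) (a b : ℕ) (h : 1 - s (a + 1) * r (b + 1) ≠ 0) :
    (1 - s (a + 1) * r (b + 1)) * UU s r (a + 1) (b + 1) =
      s (a + 1) * UU s r (a + 1) b + r (b + 1) * UU s r a (b + 1) + UU s r a b := by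
  conv_lhs => rw [UU]
  rw [mul_div_assoc', mul_div_cancel_left₀ _ h]

/-- Newton products -/
noncomputable def HKp (r : ℕ → ℂ) (ρ : ℂ) (b : ℕ) : ℂ := ∏ k ∈ range b, (ρ - r k)

theorem HKp_zero (r : ℕ → ℂ) (ρ : ℂ) : HKp r ρ 0 = 1 := by simp [HKp]

theorem HKp_succ (r : ℕ → ℂ) (ρ : ℂ) (b : ℕ) : HKp r ρ (b + 1) = HKp r ρ b * (ρ - r b) := by
  unfold HKp; rw [Finset.prod_range_succ]

theorem HKp_eq_zero (r : ℕ → ℂ) {j m : ℕ} (h : j < m) : HKp r (r j) m = 0 := by
  unfold HKp
  exact Finset.prod_eq_zero (Finset.mem_range.2 h) (sub_self _)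

/-! ### the telescoping identities, T -/

theorem HK_tel0 (s r : ℕ → ℂ) (ρ : ℂ) (m : ℕ) (h : ∀ b ≤ m, 1 - s 0 - r b ≠ 0) :
    (1 - s 0 - ρ) * ∑ b ∈ range (m + 1), HKp r ρ b * TT s r 0 b + HKp r ρ (m + 1) * TT s r 0 m
      = 1 := by
  induction m with
  | zero =>
    have := HK_T00 s r (h 0 le_rfl)
    simp only [zero_add, Finset.sum_range_one, HKp_succ, HKp_zero]
    linear_combination this
  | succ m ih =>
    have h1 := ih (fun b hb => h b (by omega))
    have h2 := HK_T0 s r m (h (m + 1) le_rfl)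
    rw [Finset.sum_range_succ, HKp_succ r ρ (m + 1)]
    linear_combination h1 + HKp r ρ (m + 1) * h2

theorem HK_tel (s r : ℕ → ℂ) (ρ : ℂ) (a m : ℕ) (h : ∀ b ≤ m, 1 - s (a + 1) - r b ≠ 0) :
    (1 - s (a + 1) - ρ) * ∑ b ∈ range (m + 1), HKp r ρ b * TT s r (a + 1) b +
      HKp r ρ (m + 1) * TT s r (a + 1) m = ∑ b ∈ range (m + 1), HKp r ρ b * TT s r a b := by
  induction m with
  | zero =>
    have := HK_Ta s r a (h 0 le_rfl)
    simp only [zero_add, Finset.sum_range_one, HKp_succ, HKp_zero]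
    linear_combination this
  | succ m ih =>
    have h1 := ih (fun b hb => h b (by omega))
    have h2 := HK_T s r a m (h (m + 1) le_rfl)
    rw [Finset.sum_range_succ, Finset.sum_range_succ _ (m + 1), HKp_succ r ρ (m + 1)]
    linear_combination h1 + HKp r ρ (m + 1) * h2

theorem HK_telU0 (s r : ℕ → ℂ) (ρ : ℂ) (m : ℕ) (h : ∀ b ≤ m, 1 - s 0 * r b ≠ 0) :
    (1 - s 0 * ρ) * ∑ b ∈ range (m + 1), HKp r ρ b * UU s r 0 b +
      s 0 * (HKp r ρ (m + 1) * UU s r 0 m) = 1 := by
  induction m with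
  | zero =>
    have := HK_U00 s r (h 0 le_rfl)
    simp only [zero_add, Finset.sum_range_one, HKp_succ, HKp_zero]
    linear_combination this
  | succ m ih =>
    have h1 := ih (fun b hb => h b (by omega))
    have h2 := HK_U0 s r m (h (m + 1) le_rfl)
    rw [Finset.sum_range_succ, HKp_succ r ρ (m + 1)]
    linear_combination h1 + HKp r ρ (m + 1) * h2

theorem HK_telU (s r : ℕ → ℂ) (ρ : ℂ) (a m : ℕ) (h : ∀ b ≤ m, 1 - s (a + 1) * r b ≠ 0) :
    (1 - s (a + 1) * ρ) * ∑ b ∈ range (m + 1), HKp r ρ b * UU s r (a + 1) b +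
      s (a + 1) * (HKp r ρ (m + 1) * UU s r (a + 1) m) =
      ρ * ∑ b ∈ range (m + 1), HKp r ρ b * UU s r a b - HKp r ρ (m + 1) * UU s r a m := by
  induction m with
  | zero =>
    have := HK_Ua s r a (h 0 le_rfl)
    simp only [zero_add, Finset.sum_range_one, HKp_succ, HKp_zero]
    linear_combination this
  | succ m ih =>
    have h1 := ih (fun b hb => h b (by omega))
    have h2 := HK_U s r a m (h (m + 1) le_rfl)
    rw [Finset.sum_range_succ, Finset.sum_range_succ _ (m + 1), HKp_succ r ρ (m + 1)]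
    linear_combination h1 + HKp r ρ (m + 1) * h2

/-- the inner sums, T -/
theorem HK_E (s r : ℕ → ℂ) (i j : ℕ) (h : ∀ a b, a ≤ i → b ≤ j → 1 - s a - r b ≠ 0) (a : ℕ)
    (ha : a ≤ i) :
    (∏ k ∈ range (a + 1), (1 - r j - s k)) * ∑ b ∈ range (j + 1), HKp r (r j) b * TT s r a b
      = 1 := by
  induction a with
  | zero =>
    have h1 := HK_tel0 s r (r j) j (fun b hb => h 0 b (Nat.zero_le _) hb)
    rw [HKp_eq_zero r (Nat.lt_succ_self j), zero_mul, add_zero] at h1
    rw [Finset.prod_range_one]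
    linear_combination h1
  | succ a ih =>
    have h1 := HK_tel s r (r j) a j (fun b hb => h (a + 1) b ha hb)
    rw [HKp_eq_zero r (Nat.lt_succ_self j), zero_mul, add_zero] at h1
    have h2 := ih (by omega)
    rw [Finset.prod_range_succ]
    linear_combination h2 + (∏ k ∈ range (a + 1), (1 - r j - s k)) * h1

/-- the inner sums, U -/
theorem HK_EU (s r : ℕ → ℂ) (i j : ℕ) (h : ∀ a b, a ≤ i → b ≤ j → 1 - s a * r b ≠ 0) (a : ℕ)
    (ha : a ≤ i) :
    (∏ k ∈ range (a + 1), (1 - r j * s k)) * ∑ b ∈ range (j + 1), HKp r (r j) b * UU s r a b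
      = (r j) ^ a := by
  induction a with
  | zero =>
    have h1 := HK_telU0 s r (r j) j (fun b hb => h 0 b (Nat.zero_le _) hb)
    rw [HKp_eq_zero r (Nat.lt_succ_self j), zero_mul, mul_zero, add_zero] at h1
    rw [Finset.prod_range_one]
    linear_combination h1
  | succ a ih =>
    have h1 := HK_telU s r (r j) a j (fun b hb => h (a + 1) b ha hb)
    rw [HKp_eq_zero r (Nat.lt_succ_self j), zero_mul, zero_mul, mul_zero, add_zero, sub_zero] at h1
    have h2 := ih (by omega)
    rw [Finset.prod_range_succ, pow_succ]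
    linear_combination (r j) * h2 + (∏ k ∈ range (a + 1), (1 - r j * s k)) * h1

/-- Newton telescoping, T -/
theorem HK_new (s : ℕ → ℂ) (x c : ℂ) (m : ℕ) (h : ∀ k < m, c - s k ≠ 0) (E : ℕ → ℂ)
    (hE : ∀ a < m, (∏ k ∈ range (a + 1), (c - s k)) * E a = 1) :
    (c - x) * ∑ a ∈ range m, HKp s x a * E a =
      1 - HKp s x m / ∏ k ∈ range m, (c - s k) := by
  induction m with
  | zero => simp [HKp_zero]
  | succ m ih =>
    have h1 := ih (fun k hk => h k (by omega)) (fun a ha => hE a (by omega))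
    have h2 := hE m (Nat.lt_succ_self m)
    have hm := h m (Nat.lt_succ_self m)
    have hQ : ∏ k ∈ range m, (c - s k) ≠ 0 :=
      Finset.prod_ne_zero_iff.2 fun k hk => h k (by have := Finset.mem_range.1 hk; omega)
    rw [Finset.prod_range_succ] at h2
    have hEm : E m = 1 / ((∏ k ∈ range m, (c - s k)) * (c - s m)) := by
      rw [eq_div_iff (mul_ne_zero hQ hm), mul_comm]; exact h2
    rw [Finset.sum_range_succ, mul_add, h1, HKp_succ, Finset.prod_range_succ, hEm]
    field_simp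
    ring

/-- Newton telescoping, U -/
theorem HK_newU (s : ℕ → ℂ) (x ρ : ℂ) (m : ℕ) (h : ∀ k < m, 1 - ρ * s k ≠ 0) (E : ℕ → ℂ)
    (hE : ∀ a < m, (∏ k ∈ range (a + 1), (1 - ρ * s k)) * E a = ρ ^ a) :
    (1 - ρ * x) * ∑ a ∈ range m, HKp s x a * E a =
      1 - ρ ^ m * HKp s x m / ∏ k ∈ range m, (1 - ρ * s k) := by
  induction m with
  | zero => simp [HKp_zero]
  | succ m ih =>
    have h1 := ih (fun k hk => h k (by omega)) (fun a ha => hE a (by omega))
    have h2 := hE m (Nat.lt_succ_self m)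
    have hm := h m (Nat.lt_succ_self m)
    have hQ : ∏ k ∈ range m, (1 - ρ * s k) ≠ 0 :=
      Finset.prod_ne_zero_iff.2 fun k hk => h k (by have := Finset.mem_range.1 hk; omega)
    rw [Finset.prod_range_succ] at h2
    have hEm : E m = ρ ^ m / ((∏ k ∈ range m, (1 - ρ * s k)) * (1 - ρ * s m)) := by
      rw [eq_div_iff (mul_ne_zero hQ hm), mul_comm]; exact h2
    rw [Finset.sum_range_succ, mul_add, h1, HKp_succ, Finset.prod_range_succ, hEm, pow_succ]
    field_simp
    ring

theorem TT_sum (s r : ℕ → ℂ) (i j : ℕ) (h : ∀ a b, a ≤ i → b ≤ j → 1 - s a - r b ≠ 0) :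
    ∑ a ∈ range (i + 1), ∑ b ∈ range (j + 1),
      (∏ k ∈ range a, (s i - s k)) * TT s r a b * (∏ k ∈ range b, (r j - r k))
    = 1 / (1 - s i - r j) := by
  have hc : ∀ k ≤ i, 1 - r j - s k ≠ 0 := by
    intro k hk h0
    exact h k j hk le_rfl (by linear_combination h0)
  have h1 := HK_new s (s i) (1 - r j) (i + 1) (fun k hk => hc k (by omega))
    (fun a => ∑ b ∈ range (j + 1), HKp r (r j) b * TT s r a b)
    (fun a ha => HK_E s r i j h a (by omega))
  rw [HKp_eq_zero s (Nat.lt_succ_self i), zero_div, sub_zero] at h1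
  have h2 : ∑ a ∈ range (i + 1), ∑ b ∈ range (j + 1),
      (∏ k ∈ range a, (s i - s k)) * TT s r a b * (∏ k ∈ range b, (r j - r k)) =
      ∑ a ∈ range (i + 1), HKp s (s i) a * ∑ b ∈ range (j + 1), HKp r (r j) b * TT s r a b := by
    refine Finset.sum_congr rfl fun a _ => ?_
    rw [Finset.mul_sum]
    refine Finset.sum_congr rfl fun b _ => ?_
    unfold HKp; ring
  have h3 : 1 - s i - r j ≠ 0 := h i j le_rfl le_rfl
  rw [h2, eq_div_iff h3]
  linear_combination h1

theorem UU_sum (s r : ℕ → ℂ) (i j : ℕ) (h : ∀ a b, a ≤ i → b ≤ j → 1 - s a * r b ≠ 0) :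
    ∑ a ∈ range (i + 1), ∑ b ∈ range (j + 1),
      (∏ k ∈ range a, (s i - s k)) * UU s r a b * (∏ k ∈ range b, (r j - r k))
    = 1 / (1 - s i * r j) := by
  have hc : ∀ k ≤ i, 1 - r j * s k ≠ 0 := by
    intro k hk h0
    exact h k j hk le_rfl (by linear_combination h0)
  have h1 := HK_newU s (s i) (r j) (i + 1) (fun k hk => hc k (by omega))
    (fun a => ∑ b ∈ range (j + 1), HKp r (r j) b * UU s r a b)
    (fun a ha => HK_EU s r i j h a (by omega))
  rw [HKp_eq_zero s (Nat.lt_succ_self i), mul_zero, zero_div, sub_zero] at h1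
  have h2 : ∑ a ∈ range (i + 1), ∑ b ∈ range (j + 1),
      (∏ k ∈ range a, (s i - s k)) * UU s r a b * (∏ k ∈ range b, (r j - r k)) =
      ∑ a ∈ range (i + 1), HKp s (s i) a * ∑ b ∈ range (j + 1), HKp r (r j) b * UU s r a b := by
    refine Finset.sum_congr rfl fun a _ => ?_
    rw [Finset.mul_sum]
    refine Finset.sum_congr rfl fun b _ => ?_
    unfold HKp; ring
  have h3 : 1 - s i * r j ≠ 0 := h i j le_rfl le_rfl
  rw [h2, eq_div_iff h3]
  linear_combination h1

/-! ### the determinant -/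

/-- the matrix of Newton products -/
noncomputable def HKN (N : ℕ) (s : ℕ → ℂ) : Matrix (Fin N) (Fin N) ℂ :=
  Matrix.of fun i a => HKp s (s i) a

theorem HK_prod_pairs {α : Type*} [CommMonoid α] (N : ℕ) (f : ℕ → ℕ → α) :
    ∏ i : Fin N, ∏ j ∈ Finset.Ioi i, f i j
      = ∏ j ∈ Finset.range N, ∏ i ∈ Finset.range j, f i j := by
  induction N with
  | zero => simp
  | succ N ih =>
    rw [Fin.prod_univ_castSucc, Finset.prod_range_succ, ← ih]
    have h1 : ∀ i : Fin N, ∏ j ∈ Finset.Ioi i.castSucc, f i.castSucc j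
        = (∏ j ∈ Finset.Ioi i, f i j) * f i N := by
      intro i
      have hI : Finset.Ioi i.castSucc
          = insert (Fin.last N) ((Finset.Ioi i).map Fin.castSuccEmb) := by
        ext j
        refine Fin.lastCases ?_ (fun j => ?_) j
        · simp [Fin.castSucc_lt_last]
        · simp
          intro _
          exact Fin.le_last _
      rw [hI, Finset.prod_insert]
      · rw [Finset.prod_map]
        simp [mul_comm]
      · simp
    rw [Finset.prod_congr rfl (fun i _ => h1 i), Finset.prod_mul_distrib]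
    have h2 : Finset.Ioi (Fin.last N) = ∅ := by
      apply Finset.eq_empty_of_forall_notMem
      intro x hx
      have := Finset.mem_Ioi.1 hx
      exact absurd this (not_lt.2 (Fin.le_last _))
    rw [h2, Finset.prod_empty, mul_one]
    congr 1
    rw [Finset.prod_range]

theorem HKN_det (N : ℕ) (s : ℕ → ℂ) :
    (HKN N s).det = (Matrix.vandermonde (fun i : Fin N => s i)).det := by
  rw [Matrix.det_vandermonde, HK_prod_pairs N (fun i j => s j - s i)]
  have hlow : (HKN N s).IsLowerTriangular := by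
    intro i j hij
    have hij' : (i : ℕ) < (j : ℕ) := by
      have h1 : OrderDual.toDual j < OrderDual.toDual i := hij
      exact OrderDual.toDual_lt_toDual.1 h1
    exact HKp_eq_zero s hij'
  rw [Matrix.det_of_isLowerTriangular _ hlow, Finset.prod_range]
  rfl

theorem ker_det (N : ℕ) (w : ℂ) (s r : ℕ → ℂ)
    (h1 : ∀ i j, i < N → j < N → 1 - s i * r j ≠ 0)
    (h2 : ∀ i j, i < N → j < N → 1 - s i - r j ≠ 0) :
    (Matrix.of fun i j : Fin N => 1 / (1 - s i * r j) + w / (1 - s i - r j)).det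
    = (Matrix.vandermonde (fun i : Fin N => s i)).det
      * (Matrix.vandermonde (fun i : Fin N => r i)).det
      * (Matrix.of fun i j : Fin N => UU s r i j + w * TT s r i j).det := by
  have hfac : (Matrix.of fun i j : Fin N => 1 / (1 - s i * r j) + w / (1 - s i - r j)) =
      HKN N s * (Matrix.of fun i j : Fin N => UU s r i j + w * TT s r i j) *
        (HKN N r).transpose := by
    ext i j
    have eT := TT_sum s r i j (fun a b ha hb => h2 a b (by omega) (by omega))
    have eU := UU_sum s r i j (fun a b ha hb => h1 a b (by omega) (by omega))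
    have ext1 : ∀ F : ℕ → ℕ → ℂ, ∑ a ∈ range ((i : ℕ) + 1), ∑ b ∈ range ((j : ℕ) + 1),
        (∏ k ∈ range a, (s i - s k)) * F a b * (∏ k ∈ range b, (r j - r k)) =
        ∑ a ∈ range N, ∑ b ∈ range N, HKp s (s i) a * F a b * HKp r (r j) b := by
      intro F
      have hi : range ((i : ℕ) + 1) ⊆ range N := Finset.range_subset_range.2 (by omega)
      have hj : range ((j : ℕ) + 1) ⊆ range N := Finset.range_subset_range.2 (by omega)
      rw [← Finset.sum_subset hi]
      · refine Finset.sum_congr rfl fun a _ => ?_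
        rw [← Finset.sum_subset hj]
        · rfl
        · intro b _ hb
          have : (j : ℕ) < b := by
            have := Finset.mem_range.not.1 hb; omega
          rw [HKp_eq_zero r this, mul_zero]
      · intro a _ ha
        have : (i : ℕ) < a := by
          have := Finset.mem_range.not.1 ha; omega
        refine Finset.sum_eq_zero fun b _ => ?_
        rw [HKp_eq_zero s this, zero_mul, zero_mul]
    rw [ext1] at eT eU
    have hw : w / (1 - s i - r j) = w * (1 / (1 - s i - r j)) := by ring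
    show 1 / (1 - s i * r j) + w / (1 - s i - r j) = _
    rw [hw, ← eT, ← eU, Finset.mul_sum, ← Finset.sum_add_distrib, Matrix.mul_apply]
    simp only [Matrix.mul_apply, Matrix.transpose_apply, HKN, Matrix.of_apply, Finset.sum_mul]
    rw [Finset.sum_comm, ← Fin.sum_univ_eq_sum_range (fun a => (∑ b ∈ range N,
      HKp s (s i) a * UU s r a b * HKp r (r j) b + w * ∑ b ∈ range N,
      HKp s (s i) a * TT s r a b * HKp r (r j) b)) N]
    refine Finset.sum_congr rfl fun a _ => ?_
    rw [Finset.mul_sum, ← Finset.sum_add_distrib, ← Fin.sum_univ_eq_sum_range (fun b =>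
      (HKp s (s i) a * UU s r a b * HKp r (r j) b + w *
      (HKp s (s i) a * TT s r a b * HKp r (r j) b))) N]
    refine Finset.sum_congr rfl fun b _ => ?_
    ring
  rw [hfac, Matrix.det_mul, Matrix.det_mul, Matrix.det_transpose, HKN_det, HKN_det]
  ring

end Pool.Agent.H160R2.HL
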