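import Pool.Agent.H160R2.HL.Final
import Pool.Agent.H863R2.Cyl.Defs

/-! The one-arm asymptotics in the notation of `H863R2.Cyl`. -/

set_option autoImplicit false

namespace Pool.Agent.H160R2.HL
open Finset
open Pool.Agent.H160R2.OA
open Pool.Agent.H863R2.Cyl (pas)

theorem pas_eq (w : ℂ) (N : ℕ) : pas w N = wB N w := by
  ext i j
  simp only [pas, wB, Matrix.of_apply, Matrix.add_apply, Matrix.smul_apply, Matrix.one_apply,
    Matrix.map_apply, Pool.Agent.H160R2.OA.B, smul_eq_mul]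
  congr 1
  split_ifs <;> simp

/-- the exponent `ex θ` of the determinant ratios, both sides, `π/3 ≤ θ ≤ 2π/3` -/
theorem pas_ratio (θ δ : ℝ) (h1 : Real.pi / 3 ≤ θ) (h2 : θ ≤ 2 * Real.pi / 3) (hδ : 0 < δ) :
    ∃ L0 : ℕ, ∀ L : ℕ, L0 ≤ L →
      (L : ℝ) ^ (-(ex θ) - δ) ≤ ‖(pas (Complex.exp (θ * Complex.I)) L).det‖ /
        ‖(pas (Complex.exp (Real.pi / 3 * Complex.I)) L).det‖ ∧
      ‖(pas (Complex.exp (θ * Complex.I)) L).det‖ /
        ‖(pas (Complex.exp (Real.pi / 3 * Complex.I)) L).det‖ ≤ (L : ℝ) ^ (-(ex θ) + δ) := by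
  have hπ := Real.pi_pos
  obtain ⟨L0, h0⟩ := det_lower' θ δ h1 h2 hδ
  obtain ⟨L1, h1'⟩ := det_upper θ δ h1 (by linarith) hδ
  refine ⟨max 1 (max L0 L1), fun L hL => ?_⟩
  have hL1 : 1 ≤ L := le_trans (le_max_left _ _) hL
  have a := h0 L (le_trans (le_trans (le_max_left _ _) (le_max_right _ _)) hL)
  have b := h1' L (le_trans (le_trans (le_max_right _ _) (le_max_right _ _)) hL)
  obtain ⟨μ, hμ⟩ := det_wB L (by omega) (Z_herm L)
  have hp := (Z_log_det hμ (θ := Real.pi / 3) (by positivity) (by linarith)).1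
  have e : (((Real.pi / 3 : ℝ) : ℂ) * Complex.I) = (Real.pi : ℂ) / 3 * Complex.I := by push_cast; ring
  rw [e] at a b hp
  rw [pas_eq, pas_eq]
  exact ⟨(le_div_iff₀ hp).mpr a, (div_le_iff₀ hp).mpr b⟩

/-- the one-arm asymptotics: `θ = π/2`, exponent `5/48` -/
theorem oneArm_asymp (δ : ℝ) (hδ : 0 < δ) :
    ∃ n0 : ℕ, ∀ n : ℕ, n0 ≤ n →
      (n : ℝ) ^ (-(5 / 48 : ℝ) - δ) ≤ ‖(pas Complex.I (2 * n)).det‖ /
        ‖(pas (Complex.exp (Real.pi / 3 * Complex.I)) (2 * n)).det‖ ∧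
      ‖(pas Complex.I (2 * n)).det‖ /
        ‖(pas (Complex.exp (Real.pi / 3 * Complex.I)) (2 * n)).det‖ ≤ (n : ℝ) ^ (-(5 / 48 : ℝ) + δ) := by
  have hπ := Real.pi_pos
  obtain ⟨L0, h0⟩ := pas_ratio (Real.pi / 2) (min (δ / 2) (5 / 48))
    (by linarith) (by linarith) (by positivity)
  -- absorb the factor `2 ^ (-5/48 - δ/2)` in `n ^ (-δ/2)`
  refine ⟨max (max 2 L0) 2 ^ 1 * 2 ^ (Nat.ceil (10 / δ)), fun n hn => ?_⟩
  have e1 : Complex.exp (((Real.pi / 2 : ℝ) : ℂ) * Complex.I) = Complex.I := by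
    rw [show (((Real.pi / 2 : ℝ) : ℂ) * Complex.I) = (Real.pi : ℂ) / 2 * Complex.I by push_cast; ring]
    exact Complex.exp_pi_div_two_mul_I
  have hle1 : 1 ≤ 2 ^ (Nat.ceil (10 / δ)) := Nat.one_le_two_pow
  have hn1 : max 2 L0 ≤ n := by
    calc max 2 L0 ≤ max (max 2 L0) 2 ^ 1 * 1 := by rw [pow_one, mul_one]; exact le_max_left _ _
      _ ≤ max (max 2 L0) 2 ^ 1 * 2 ^ (Nat.ceil (10 / δ)) := Nat.mul_le_mul_left _ hle1
      _ ≤ n := hn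
  have hn2 : 2 ^ (Nat.ceil (10 / δ)) ≤ n := by
    calc 2 ^ (Nat.ceil (10 / δ)) = 1 * 2 ^ (Nat.ceil (10 / δ)) := by ring
      _ ≤ max (max 2 L0) 2 ^ 1 * 2 ^ (Nat.ceil (10 / δ)) := by
        apply Nat.mul_le_mul_right
        rw [pow_one]
        exact le_trans (by norm_num) (le_max_right _ 2)
      _ ≤ n := hn
  have hn0 : (0 : ℝ) < n := by
    have : 2 ≤ n := le_trans (le_max_left _ _) hn1
    exact_mod_cast (by omega : 0 < n)
  have hnone : (1 : ℝ) ≤ n := by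
    have : 2 ≤ n := le_trans (le_max_left _ _) hn1
    exact_mod_cast (by omega : 1 ≤ n)
  have hL : L0 ≤ 2 * n := by
    have : L0 ≤ n := le_trans (le_max_right _ _) hn1
    omega
  obtain ⟨a, b⟩ := h0 (2 * n) hL
  rw [e1, ex_half] at a b
  set d := min (δ / 2) (5 / 48 : ℝ) with hd
  have hd1 : d ≤ δ / 2 := min_le_left _ _
  have hd2 : d ≤ 5 / 48 := min_le_right _ _
  have hd0 : 0 < d := by rw [hd]; positivity
  have hcast : (((2 * n : ℕ) : ℝ)) = 2 * n := by push_cast; ring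
  rw [hcast] at a b
  have h2n : (2 : ℝ) ≤ (n : ℝ) ^ (δ / 10) := by
    have h3 : (10 : ℝ) / δ ≤ Nat.ceil (10 / δ) := Nat.le_ceil _
    have h4 : ((2 : ℝ) ^ (Nat.ceil (10 / δ))) ≤ n := by exact_mod_cast hn2
    calc (2 : ℝ) = ((2 : ℝ) ^ (10 / δ)) ^ (δ / 10) := by
          rw [← Real.rpow_mul (by norm_num)]
          rw [show 10 / δ * (δ / 10) = 1 by field_simp]
          rw [Real.rpow_one]
      _ ≤ ((2 : ℝ) ^ ((Nat.ceil (10 / δ) : ℕ) : ℝ)) ^ (δ / 10) := by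
          apply Real.rpow_le_rpow (by positivity) _ (by positivity)
          exact Real.rpow_le_rpow_of_exponent_le (by norm_num) h3
      _ = ((2 : ℝ) ^ (Nat.ceil (10 / δ))) ^ (δ / 10) := by rw [Real.rpow_natCast]
      _ ≤ (n : ℝ) ^ (δ / 10) := Real.rpow_le_rpow (by positivity) h4 (by positivity)
  refine ⟨le_trans ?_ a, le_trans b ?_⟩
  · -- n^(-5/48-δ) ≤ (2n)^(-5/48-d)
    rw [Real.mul_rpow (by norm_num) hn0.le]
    have h5 : (n : ℝ) ^ (-(δ / 10)) ≤ (2 : ℝ) ^ (-(5 / 48 : ℝ) - d) := by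
      have h6 : (2 : ℝ) ^ (-1 : ℝ) ≤ (2 : ℝ) ^ (-(5 / 48 : ℝ) - d) :=
        Real.rpow_le_rpow_of_exponent_le (by norm_num) (by linarith)
      have h7 : (n : ℝ) ^ (-(δ / 10)) ≤ (2 : ℝ) ^ (-1 : ℝ) := by
        rw [Real.rpow_neg hn0.le, Real.rpow_neg_one]
        exact inv_anti₀ (by norm_num) h2n
      exact h7.trans h6
    calc (n : ℝ) ^ (-(5 / 48 : ℝ) - δ) ≤ (n : ℝ) ^ (-(δ / 10) + (-(5 / 48 : ℝ) - d)) :=
          Real.rpow_le_rpow_of_exponent_le hnone (by linarith)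
      _ = (n : ℝ) ^ (-(δ / 10)) * (n : ℝ) ^ (-(5 / 48 : ℝ) - d) := Real.rpow_add hn0 _ _
      _ ≤ (2 : ℝ) ^ (-(5 / 48 : ℝ) - d) * (n : ℝ) ^ (-(5 / 48 : ℝ) - d) :=
          mul_le_mul_of_nonneg_right h5 (by positivity)
  · -- (2n)^(-5/48+d) ≤ n^(-5/48+δ)
    rw [Real.mul_rpow (by norm_num) hn0.le]
    have h5 : (2 : ℝ) ^ (-(5 / 48 : ℝ) + d) ≤ 1 :=
      Real.rpow_le_one_of_one_le_of_nonpos (by norm_num) (by linarith)
    calc (2 : ℝ) ^ (-(5 / 48 : ℝ) + d) * (n : ℝ) ^ (-(5 / 48 : ℝ) + d)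
        ≤ 1 * (n : ℝ) ^ (-(5 / 48 : ℝ) + d) := mul_le_mul_of_nonneg_right h5 (by positivity)
      _ = (n : ℝ) ^ (-(5 / 48 : ℝ) + d) := one_mul _
      _ ≤ (n : ℝ) ^ (-(5 / 48 : ℝ) + δ) :=
          Real.rpow_le_rpow_of_exponent_le hnone (by linarith)

end Pool.Agent.H160R2.HL
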