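import Pool.Agent.H160R2.HL.Defs
import Pool.Agent.H974R3.Alt

/-! Blueprint HL (statements only): homogeneous limit of the inhomogeneous determinant and the
exact calibration `det(1+B)/det(q+B)`.  Definitions are in HL/Defs.lean. -/

set_option autoImplicit false

namespace Pool.Agent.H160R2.HL
open Finset Filter Topology
open Pool.Agent.H974R3 Pool.Agent.H160R2.OA

/-! ### Task HK (HL/Ker.lean) -/

theorem TT_sum (s r : ℕ → ℂ) (i j : ℕ) (h : ∀ a b, a ≤ i → b ≤ j → 1 - s a - r b ≠ 0) :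
    ∑ a ∈ range (i + 1), ∑ b ∈ range (j + 1),
      (∏ k ∈ range a, (s i - s k)) * TT s r a b * (∏ k ∈ range b, (r j - r k))
    = 1 / (1 - s i - r j) := sorry

theorem UU_sum (s r : ℕ → ℂ) (i j : ℕ) (h : ∀ a b, a ≤ i → b ≤ j → 1 - s a * r b ≠ 0) :
    ∑ a ∈ range (i + 1), ∑ b ∈ range (j + 1),
      (∏ k ∈ range a, (s i - s k)) * UU s r a b * (∏ k ∈ range b, (r j - r k))
    = 1 / (1 - s i * r j) := sorry

theorem ker_det (N : ℕ) (w : ℂ) (s r : ℕ → ℂ)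
    (h1 : ∀ i j, i < N → j < N → 1 - s i * r j ≠ 0)
    (h2 : ∀ i j, i < N → j < N → 1 - s i - r j ≠ 0) :
    (Matrix.of fun i j : Fin N => 1 / (1 - s i * r j) + w / (1 - s i - r j)).det
    = (Matrix.vandermonde (fun i : Fin N => s i)).det
      * (Matrix.vandermonde (fun i : Fin N => r i)).det
      * (Matrix.of fun i j : Fin N => UU s r i j + w * TT s r i j).det := sorry

/-! ### Task HL (HL/Lim.lean) -/

theorem TT_lim {α : Type*} (l : Filter α) (s r : α → ℕ → ℂ)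
    (hs : ∀ k, Tendsto (fun t => s t k) l (𝓝 0)) (hr : ∀ k, Tendsto (fun t => r t k) l (𝓝 0))
    (a b : ℕ) : Tendsto (fun t => TT (s t) (r t) a b) l (𝓝 ((Nat.choose (a + b) a : ℕ) : ℂ)) := sorry

theorem UU_lim {α : Type*} (l : Filter α) (s r : α → ℕ → ℂ)
    (hs : ∀ k, Tendsto (fun t => s t k) l (𝓝 0)) (hr : ∀ k, Tendsto (fun t => r t k) l (𝓝 0))
    (a b : ℕ) : Tendsto (fun t => UU (s t) (r t) a b) l (𝓝 (if a = b then 1 else 0)) := sorry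

theorem det_lim {α : Type*} (l : Filter α) (s r : α → ℕ → ℂ)
    (hs : ∀ k, Tendsto (fun t => s t k) l (𝓝 0)) (hr : ∀ k, Tendsto (fun t => r t k) l (𝓝 0))
    (N : ℕ) (w : ℂ) :
    Tendsto (fun t => (Matrix.of fun i j : Fin N => UU (s t) (r t) i j + w * TT (s t) (r t) i j).det)
      l (𝓝 ((1 : Matrix (Fin N) (Fin N) ℂ) + w • (B N).map (fun x : ℝ => (x : ℂ))).det) := sorry

/-! ### Task HM (HL/Main.lean), uses HK HL -/

theorem hom_lim (q : ℂ) (hq : q ^ 2 + q + 1 = 0) (N : ℕ) (w : ℂ) {α : Type*} (l : Filter α)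
    (x y : α → ℕ → ℂ)
    (hx : ∀ k, Tendsto (fun t => x t k) l (𝓝 1)) (hy : ∀ k, Tendsto (fun t => y t k) l (𝓝 1))
    (hxi : ∀ᶠ t in l, Function.Injective (x t)) (hyi : ∀ᶠ t in l, Function.Injective (y t)) :
    Tendsto (fun t => (Matrix.of fun i j : Fin N =>
        1 / (q ^ 2 * x t i - q * y t j) + w / (q ^ 2 * y t j - q * x t i)).det
        / ((Matrix.vandermonde (fun i : Fin N => x t i)).det
          * (Matrix.vandermonde (fun i : Fin N => y t i)).det)) l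
      (𝓝 ((q / (1 - q ^ 2)) ^ N * (1 / 3) ^ (N * (N - 1) / 2)
        * ((1 : Matrix (Fin N) (Fin N) ℂ) + w • (B N).map (fun x : ℝ => (x : ℂ))).det)) := sorry

/-! ### Task HG (HL/Homog.lean), uses HM -/

theorem hom_limit (q : ℂ) (hq : q ^ 2 + q + 1 = 0) (N : ℕ) (w : ℂ) (G : (Fin N → ℂ) → ℂ)
    (hG : ContinuousAt G (fun _ => 1))
    (h : ∀ z : Fin N → ℂ, Function.Injective z → (∀ i, z i ≠ 0) →
      (∀ i j, q ^ 2 * z i - q * z j ≠ 0) →
      G z * ∏ i, ∏ j ∈ Finset.Ioi i, (z i - z j) ^ 2 =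
        (∏ i, ∏ j ∈ Finset.univ.erase i, (q ^ 2 * z i - q * z j) ^ 2) * (∏ i, z i) *
        (Matrix.of fun i j : Fin N =>
          1 / (q ^ 2 * z i - q * z j) + w / (q ^ 2 * z j - q * z i)).det) :
    G (fun _ => 1) = 3 ^ (N * (N - 1) / 2) * (q / (1 - q ^ 2)) ^ N *
      (Matrix.of fun i j : Fin N =>
        (if i = j then 1 else 0) + w * (Nat.choose ((i : ℕ) + j) i : ℂ)).det := sorry

/-! ### Task HA (HL/Alt.lean) -/

theorem norm_det_submatrix {m n : Type*} [Fintype m] [Fintype n] [DecidableEq m] [DecidableEq n]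
    (A : Matrix n n ℂ) (e f : m ≃ n) : ‖(A.submatrix e f).det‖ = ‖A.det‖ := sorry

theorem alt_ker (r N : ℕ) (x y : Fin N → ℂ) (hx : Function.Injective (fun i => x i ^ 3))
    (hxy : ∀ i j, x i ^ 3 ≠ y j ^ 3) :
    ‖(Matrix.of fun i j : Fin N => (x i ^ r - y j ^ r) / (x i ^ 3 - y j ^ 3)).det‖
      * ∏ i, ∏ j, ‖x i ^ 3 - y j ^ 3‖
    = ‖(Matrix.of fun i j : Fin (N + N) => (Fin.append x y i) ^ aexp r j).det‖ := sorry

/-! ### Task HV (HL/Val.lean) -/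

theorem gg_ratio (N : ℕ) :
    AltAux.gg 2 (List.replicate (N + N) (1 : ℂ)) * ∏ k ∈ range N, (3 * (k : ℂ) + 1)
      = AltAux.gg 1 (List.replicate (N + N) (1 : ℂ)) * ∏ k ∈ range N, (3 * (k : ℂ) + 2) := sorry

theorem gg_ne (N : ℕ) : AltAux.gg 1 (List.replicate (N + N) (1 : ℂ)) ≠ 0 := sorry

/-! ### Task HC (HL/Calib.lean), uses HM HA HV -/

theorem calib (q : ℂ) (hq : q ^ 2 + q + 1 = 0) (N : ℕ) :
    ‖(wB N 1).det‖ * ∏ k ∈ range N, (3 * (k : ℝ) + 1)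
      = ‖(wB N q).det‖ * ∏ k ∈ range N, (3 * (k : ℝ) + 2) := sorry

/-! ### Task HF (HL/Final.lean), uses HC and OA/Final -/

theorem prod_bound (N : ℕ) (hN : 1 ≤ N) :
    ∏ k ∈ range N, (3 * (k : ℝ) + 2) ≤ 2 * (N : ℝ) ^ (1 / 3 : ℝ) *
      ∏ k ∈ range N, (3 * (k : ℝ) + 1) := sorry

theorem det_lower' (θ δ : ℝ) (h1 : Real.pi / 3 ≤ θ) (h2 : θ ≤ 2 * Real.pi / 3) (hδ : 0 < δ) :
    ∃ L0 : ℕ, ∀ L : ℕ, L0 ≤ L →
      (L : ℝ) ^ (-(3 / 4 * (θ ^ 2 / Real.pi ^ 2 - 1 / 9)) - δ)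
          * ‖(wB L (Complex.exp ((Real.pi / 3 : ℝ) * Complex.I))).det‖ ≤
        ‖(wB L (Complex.exp (θ * Complex.I))).det‖ := sorry

end Pool.Agent.H160R2.HL
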